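import Mathlib

/-!
# Averages over finite types
-/

namespace Pool.Agent.H41.Ord

open Finset

/-- The average of `f` over a finite type. -/
noncomputable def avg {α : Type*} [Fintype α] (f : α → ℝ) : ℝ := (∑ a, f a) / Fintype.card α

section basic

variable {α β : Type*} [Fintype α] [Fintype β]

lemma avg_add (f g : α → ℝ) : avg (fun a => f a + g a) = avg f + avg g := by
  unfold avg; rw [Finset.sum_add_distrib, add_div]

lemma avg_sub (f g : α → ℝ) : avg (fun a => f a - g a) = avg f - avg g := by
  unfold avg; rw [Finset.sum_sub_distrib, sub_div]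

lemma avg_mul_left (c : ℝ) (f : α → ℝ) : avg (fun a => c * f a) = c * avg f := by
  unfold avg; rw [← Finset.mul_sum, mul_div_assoc]

lemma avg_mul_right (f : α → ℝ) (c : ℝ) : avg (fun a => f a * c) = avg f * c := by
  unfold avg; rw [← Finset.sum_mul, div_mul_eq_mul_div]

lemma avg_sum {ι : Type*} (s : Finset ι) (f : ι → α → ℝ) :
    avg (fun a => ∑ i ∈ s, f i a) = ∑ i ∈ s, avg (f i) := by
  unfold avg; rw [Finset.sum_comm, Finset.sum_div]

lemma avg_const [Nonempty α] (c : ℝ) : avg (fun _ : α => c) = c := by
  have : (Fintype.card α : ℝ) ≠ 0 := by positivity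
  unfold avg; simp [this]

lemma avg_mono {f g : α → ℝ} (h : ∀ a, f a ≤ g a) : avg f ≤ avg g := by
  unfold avg
  gcongr
  exact h _

lemma avg_nonneg {f : α → ℝ} (h : ∀ a, 0 ≤ f a) : 0 ≤ avg f := by
  unfold avg
  exact div_nonneg (Finset.sum_nonneg fun a _ => h a) (Nat.cast_nonneg _)

lemma avg_le_of_le [Nonempty α] {f : α → ℝ} {c : ℝ} (h : ∀ a, f a ≤ c) : avg f ≤ c := by
  calc avg f ≤ avg (fun _ : α => c) := avg_mono h
    _ = c := avg_const c

lemma le_avg_of_le [Nonempty α] {f : α → ℝ} {c : ℝ} (h : ∀ a, c ≤ f a) : c ≤ avg f := by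
  calc c = avg (fun _ : α => c) := (avg_const c).symm
    _ ≤ avg f := avg_mono h

lemma exists_ge_avg [Nonempty α] (f : α → ℝ) : ∃ a, avg f ≤ f a := by
  by_contra h
  push Not at h
  have hlt : ∑ a, f a < ∑ _a : α, avg f :=
    Finset.sum_lt_sum_of_nonempty Finset.univ_nonempty fun a _ => h a
  have hc : (0 : ℝ) < Fintype.card α := by positivity
  have : ∑ _a : α, avg f = ∑ a, f a := by
    rw [Finset.sum_const, Finset.card_univ, nsmul_eq_mul]
    unfold avg
    field_simp
  linarith

lemma avg_prod (f : α × β → ℝ) : avg f = avg (fun a => avg (fun b => f (a, b))) := by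
  unfold avg
  rw [Fintype.sum_prod_type, Fintype.card_prod, Nat.cast_mul, ← Finset.sum_div, div_div,
    mul_comm (Fintype.card α : ℝ)]

lemma avg_comm (f : α → β → ℝ) :
    avg (fun a => avg (fun b => f a b)) = avg (fun b => avg (fun a => f a b)) := by
  unfold avg
  simp_rw [← Finset.sum_div]
  rw [Finset.sum_comm, div_div, div_div, mul_comm]

lemma avg_equiv (e : α ≃ β) (f : β → ℝ) : avg (fun a => f (e a)) = avg f := by
  unfold avg
  rw [Equiv.sum_comp e f, Fintype.card_congr e]

lemma avg_congr {f g : α → ℝ} (h : ∀ a, f a = g a) : avg f = avg g := by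
  congr 1; ext a; exact h a

lemma avg_bool (f : Bool → ℝ) : avg f = (f false + f true) / 2 := by
  unfold avg
  simp [add_comm]

lemma abs_avg_le (f : α → ℝ) : |avg f| ≤ avg (fun a => |f a|) := by
  unfold avg
  rw [abs_div, Nat.abs_cast]
  gcongr
  exact Finset.abs_sum_le_sum_abs _ _

/-- Jensen for squares. -/
lemma sq_avg_le [Nonempty α] (f : α → ℝ) : (avg f) ^ 2 ≤ avg (fun a => f a ^ 2) := by
  have h : 0 ≤ avg (fun a => (f a - avg f) ^ 2) := avg_nonneg fun a => sq_nonneg _
  have h2 : avg (fun a => (f a - avg f) ^ 2) = avg (fun a => f a ^ 2) - (avg f) ^ 2 := by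
    have : (fun a => (f a - avg f) ^ 2) =
        fun a => (f a ^ 2 - 2 * avg f * f a) + (avg f) ^ 2 := by
      ext a; ring
    rw [this, avg_add, avg_sub, avg_mul_left, avg_const]
    ring
  linarith

/-- The variance identity. -/
lemma avg_sub_sq [Nonempty α] (f : α → ℝ) :
    avg (fun a => (f a - avg f) ^ 2) = avg (fun a => f a ^ 2) - (avg f) ^ 2 := by
  have : (fun a => (f a - avg f) ^ 2) =
      fun a => (f a ^ 2 - 2 * avg f * f a) + (avg f) ^ 2 := by
    ext a; ring
  rw [this, avg_add, avg_sub, avg_mul_left, avg_const]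
  ring

end basic

section glue

variable {M : ℕ} {V : Type*}

/-- `glue t p h s` agrees with `p` before `t`, is `h` at `t`, and agrees with `s` after `t`. -/
def glue (t : Fin M) (p : Fin M → V) (h : V) (s : Fin M → V) : Fin M → V :=
  fun i => if i < t then p i else if i = t then h else s i

lemma glue_lt {t i : Fin M} (hi : i < t) (p : Fin M → V) (h : V) (s : Fin M → V) :
    glue t p h s i = p i := by simp [glue, hi]

lemma glue_self (t : Fin M) (p : Fin M → V) (h : V) (s : Fin M → V) :
    glue t p h s t = h := by simp [glue]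

lemma glue_gt {t i : Fin M} (hi : t < i) (p : Fin M → V) (h : V) (s : Fin M → V) :
    glue t p h s i = s i := by simp [glue, hi.not_gt, hi.ne']

/-- The involution showing that `glue` preserves the uniform measure. -/
def glueSwap (t : Fin M) (x : (Fin M → V) × V × (Fin M → V)) : (Fin M → V) × V × (Fin M → V) :=
  (glue t x.1 x.2.1 x.2.2, x.1 t, glue t x.2.2 (x.2.2 t) x.1)

lemma glueSwap_invol (t : Fin M) : Function.Involutive (glueSwap (V := V) t) := by
  rintro ⟨p, h, s⟩
  simp only [glueSwap, Prod.mk.injEq]
  refine ⟨?_, ?_, ?_⟩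
  · ext i
    rcases lt_trichotomy i t with hi | hi | hi
    · simp [glue_lt hi]
    · subst hi; simp [glue_self]
    · simp [glue_gt hi]
  · simp [glue_self]
  · ext i
    rcases lt_trichotomy i t with hi | hi | hi
    · simp [glue_lt hi]
    · subst hi; simp [glue_self]
    · simp [glue_gt hi]

variable [Fintype V]

lemma avg_glue (t : Fin M) (φ : (Fin M → V) → ℝ) [Nonempty V] :
    avg (fun p : Fin M → V => avg (fun h : V => avg (fun s : Fin M → V => φ (glue t p h s)))) =
      avg φ := by
  have h1 : avg (fun x : (Fin M → V) × V × (Fin M → V) => φ (glueSwap t x).1) =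
      avg (fun x : (Fin M → V) × V × (Fin M → V) => φ x.1) :=
    avg_equiv (glueSwap_invol t).toPerm (fun x => φ x.1)
  rw [avg_prod, avg_prod (fun x : (Fin M → V) × V × (Fin M → V) => φ x.1)] at h1
  simp only [avg_const] at h1
  rw [← h1]
  apply avg_congr
  intro p
  rw [avg_prod]
  rfl

/-- The involution for `Function.update`. -/
lemma avg_update (t : Fin M) (φ : (Fin M → V) → ℝ) [Nonempty V] :
    avg (fun s : Fin M → V => avg (fun h : V => φ (Function.update s t h))) = avg φ := by
  have hinv : Function.Involutive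
      (fun x : (Fin M → V) × V => (Function.update x.1 t x.2, x.1 t)) := by
    rintro ⟨s, h⟩
    simp
  have h1 : avg (fun x : (Fin M → V) × V => φ (Function.update x.1 t x.2)) =
      avg (fun x : (Fin M → V) × V => φ x.1) :=
    avg_equiv hinv.toPerm (fun x => φ x.1)
  rw [avg_prod, avg_prod (fun x : (Fin M → V) × V => φ x.1)] at h1
  simpa only [avg_const] using h1

/-- `E_k f`: average over the coordinates `≥ k`. -/
noncomputable def cond (k : ℕ) (f : (Fin M → V) → ℝ) (u : Fin M → V) : ℝ :=
  avg (fun s : Fin M → V => f (fun i => if i.val < k then u i else s i))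

lemma cond_succ (t : Fin M) (f : (Fin M → V) → ℝ) (p : Fin M → V) (h : V) :
    cond (t.val + 1) f (Function.update p t h) = avg (fun s => f (glue t p h s)) := by
  unfold cond
  apply avg_congr
  intro s
  congr 1
  ext i
  rcases lt_trichotomy i t with hi | hi | hi
  · have : i.val < t.val + 1 := by have := Fin.lt_def.1 hi; omega
    rw [if_pos this, glue_lt hi, Function.update_of_ne hi.ne]
  · subst hi
    simp [glue_self]
  · have : ¬ i.val < t.val + 1 := by have := Fin.lt_def.1 hi; omega
    rw [if_neg this, glue_gt hi]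

lemma cond_self [Nonempty V] (t : Fin M) (f : (Fin M → V) → ℝ) (p : Fin M → V) :
    avg (fun h : V => avg (fun s => f (glue t p h s))) = cond t.val f p := by
  unfold cond
  rw [← avg_update t (fun s : Fin M → V => f (fun i => if i.val < t.val then p i else s i)),
    avg_comm]
  apply avg_congr
  intro s
  apply avg_congr
  intro h
  congr 1
  ext i
  rcases lt_trichotomy i t with hi | hi | hi
  · have : i.val < t.val := Fin.lt_def.1 hi
    rw [if_pos this, glue_lt hi]
  · subst hi
    simp [glue_self]
  · have : ¬ i.val < t.val := by have := Fin.lt_def.1 hi; omega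
    rw [if_neg this, glue_gt hi, Function.update_of_ne hi.ne']

/-- The energy bound: the sum over the coordinates of the average variances is at most one. -/
lemma energy_le [Nonempty V] (f : (Fin M → V) → ℝ) (hf : ∀ u, 0 ≤ f u) (hf1 : ∀ u, f u ≤ 1) :
    ∑ t : Fin M, avg (fun p : Fin M → V => avg (fun h : V =>
      (avg (fun s => f (glue t p h s)) - avg (fun h' : V => avg (fun s => f (glue t p h' s)))) ^ 2))
      ≤ 1 := by
  have hterm : ∀ t : Fin M, avg (fun p : Fin M → V => avg (fun h : V =>
      (avg (fun s => f (glue t p h s)) - avg (fun h' : V => avg (fun s => f (glue t p h' s)))) ^ 2))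
      = avg (fun u => cond (t.val + 1) f u ^ 2) - avg (fun u => cond t.val f u ^ 2) := by
    intro t
    have h1 : ∀ p : Fin M → V, avg (fun h : V =>
      (avg (fun s => f (glue t p h s)) - avg (fun h' : V => avg (fun s => f (glue t p h' s)))) ^ 2)
        = avg (fun h : V => cond (t.val + 1) f (Function.update p t h) ^ 2)
          - cond t.val f p ^ 2 := by
      intro p
      rw [avg_sub_sq, cond_self]
      congr 1
      apply avg_congr
      intro h
      rw [cond_succ]
    rw [avg_congr h1, avg_sub, avg_update t (fun u => cond (t.val + 1) f u ^ 2)]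
  rw [Finset.sum_congr rfl fun t _ => hterm t]
  have htel : ∑ t : Fin M, (avg (fun u => cond (t.val + 1) f u ^ 2) -
      avg (fun u => cond t.val f u ^ 2)) =
      avg (fun u => cond M f u ^ 2) - avg (fun u => cond (M := M) 0 f u ^ 2) := by
    rw [Fin.sum_univ_eq_sum_range (fun t => avg (fun u => cond (t + 1) f u ^ 2) -
      avg (fun u => cond (M := M) t f u ^ 2)) M]
    exact Finset.sum_range_sub (fun t => avg (fun u => cond (M := M) t f u ^ 2)) M
  rw [htel]
  have h0 : 0 ≤ avg (fun u => cond (M := M) 0 f u ^ 2) := avg_nonneg fun u => sq_nonneg _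
  have h1 : avg (fun u => cond M f u ^ 2) ≤ 1 := by
    apply avg_le_of_le
    intro u
    have ha : 0 ≤ cond M f u := avg_nonneg fun s => hf _
    have hb : cond M f u ≤ 1 := avg_le_of_le fun s => hf1 _
    nlinarith
  linarith

end glue

end Pool.Agent.H41.Ord
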