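import Pool.Agent.H41.Ord.Host

/-!
# Configurations
-/

namespace Pool.Agent.H41.Ord

open Finset

section conf

variable {V Ω : Type} [LinearOrder V] {q : ℕ}

/-- A configuration of length `ℓ`: vertices `x j a` for `j ≤ ℓ`, `a < q`, with strictly increasing
positions in `j`, such that the relation `G` between `x j a` and `x j' b` is given by `D j a b`
for all `j < j'`. -/
structure IsConf (G : V × Ω → V × Ω → Prop) (A : Fin q → Set (V × Ω)) (ℓ : ℕ)
    (x : ℕ → Fin q → V × Ω) (D : ℕ → Fin q → Fin q → Bool) : Prop where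
  mem : ∀ j ≤ ℓ, ∀ a, x j a ∈ A a
  lt : ∀ j j', j < j' → j' ≤ ℓ → ∀ a b, (x j a).1 < (x j' b).1
  pat : ∀ j j', j < j' → j' ≤ ℓ → ∀ a b, (G (x j a) (x j' b) ↔ D j a b = true)

/-- The number of off-diagonal ones of a matrix. -/
def offOnes (D : Fin q → Fin q → Bool) : ℕ :=
  ∑ a, ∑ b, if a ≠ b ∧ D a b = true then 1 else 0

lemma offOnes_le (D : Fin q → Fin q → Bool) : offOnes D ≤ q * q := by
  unfold offOnes
  calc ∑ a, ∑ b, (if a ≠ b ∧ D a b = true then 1 else 0) ≤ ∑ _a : Fin q, ∑ _b : Fin q, 1 := by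
        gcongr with a _ b _
        split_ifs <;> simp
    _ = q * q := by simp

/-- The value `v` is achieved by a configuration of length at most `n`. -/
def Ach (G : V × Ω → V × Ω → Prop) (A : Fin q → Set (V × Ω)) (n v : ℕ) : Prop :=
  ∃ ℓ ≤ n, ∃ x D, IsConf G A ℓ x D ∧ v = ∑ j ∈ range ℓ, offOnes (D j)

lemma Ach.le {G : V × Ω → V × Ω → Prop} {A : Fin q → Set (V × Ω)} {n v : ℕ} (h : Ach G A n v) :
    v ≤ n * (q * q) := by
  obtain ⟨ℓ, hℓ, x, D, -, rfl⟩ := h
  calc ∑ j ∈ range ℓ, offOnes (D j) ≤ ∑ _j ∈ range ℓ, q * q := by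
        gcongr with j _
        exact offOnes_le _
    _ = ℓ * (q * q) := by simp
    _ ≤ n * (q * q) := by gcongr

lemma ach_zero {G : V × Ω → V × Ω → Prop} {A : Fin q → Set (V × Ω)} (n : ℕ)
    (hA : ∀ a, (A a).Nonempty) : Ach G A n 0 := by
  choose z hz using hA
  refine ⟨0, Nat.zero_le _, fun _ a => z a, fun _ _ _ => false, ⟨?_, ?_, ?_⟩, by simp⟩
  · intro j _ a; exact hz a
  · intro j j' h h'; omega
  · intro j j' h h'; omega

/-- The best value of a configuration of length at most `n` (`0` if there is none). -/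
noncomputable def best (G : V × Ω → V × Ω → Prop) (A : Fin q → Set (V × Ω)) (n : ℕ) : ℕ :=
  sSup {v | Ach G A n v}

lemma bddAbove_ach (G : V × Ω → V × Ω → Prop) (A : Fin q → Set (V × Ω)) (n : ℕ) :
    BddAbove {v | Ach G A n v} := ⟨n * (q * q), fun _ h => Ach.le h⟩

lemma Ach.le_best {G : V × Ω → V × Ω → Prop} {A : Fin q → Set (V × Ω)} {n v : ℕ}
    (h : Ach G A n v) : v ≤ best G A n := le_csSup (bddAbove_ach G A n) h

lemma ach_best {G : V × Ω → V × Ω → Prop} {A : Fin q → Set (V × Ω)} (n : ℕ)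
    (hA : ∀ a, (A a).Nonempty) : Ach G A n (best G A n) :=
  Nat.sSup_mem ⟨0, ach_zero n hA⟩ (bddAbove_ach G A n)

lemma best_le (G : V × Ω → V × Ω → Prop) (A : Fin q → Set (V × Ω)) (n : ℕ) :
    best G A n ≤ n * (q * q) := by
  rcases Set.eq_empty_or_nonempty {v | Ach G A n v} with h | h
  · unfold best; rw [h]; simp
  · exact (Nat.sSup_mem h (bddAbove_ach G A n) : Ach G A n _).le

end conf

section stepconf

variable {V Ω : Type} [LinearOrder V] {q M : ℕ}

/-- The embedding of the block `(t, p)`. -/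
def emb (t : Fin M) (p : Fin M → V) (z : V × ((Fin M → V) × Ω)) : Next V M × Ω :=
  (Next.mk true (glue t p z.1 z.2.1), z.2.2)

/-- The part of `A b` in the block `(t, p)` with pattern `σ b` on the vertices `x₀ a`. -/
def subA (G : Next V M × Ω → Next V M × Ω → Prop) (A : Fin q → Set (Next V M × Ω))
    (x₀ : Fin q → Next V M × Ω) (t : Fin M) (p : Fin M → V) (σ : Fin q → Fin q → Bool)
    (b : Fin q) : Set (V × ((Fin M → V) × Ω)) :=
  {z | emb t p z ∈ A b ∧ ∀ a, (G (x₀ a) (emb t p z) ↔ σ b a = true)}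

/-- The relation in the block `(t, p)`. -/
def subG (G : Next V M × Ω → Next V M × Ω → Prop) (t : Fin M) (p : Fin M → V)
    (z z' : V × ((Fin M → V) × Ω)) : Prop := G (emb t p z) (emb t p z')

lemma ach_step {G : Next V M × Ω → Next V M × Ω → Prop} {A : Fin q → Set (Next V M × Ω)}
    {x₀ : Fin q → Next V M × Ω} (hx₀ : ∀ a, x₀ a ∈ A a) (hx₀' : ∀ a, ∃ u, (x₀ a).1 = Next.mk false u)
    (t : Fin M) (p : Fin M → V) (σ : Fin q → Fin q → Bool) {n v : ℕ}
    (h : Ach (subG G t p) (subA G A x₀ t p σ) n v) :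
    Ach G A (n + 1) (offOnes (fun a b => σ b a) + v) := by
  obtain ⟨ℓ, hℓ, x, D, hc, rfl⟩ := h
  refine ⟨ℓ + 1, by omega, fun j => Nat.casesOn j x₀ (fun j a => emb t p (x j a)),
    fun j => Nat.casesOn j (fun a b => σ b a) D, ⟨?_, ?_, ?_⟩, ?_⟩
  · rintro (_ | j) hj a
    · exact hx₀ a
    · exact (hc.mem j (by omega) a).1
  · rintro (_ | j) (_ | j') hjj hj' a b
    · omega
    · obtain ⟨u, hu⟩ := hx₀' a
      change (x₀ a).1 < (emb t p (x j' b)).1
      rw [hu]
      exact Next.lt_top _ _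
    · omega
    · exact Next.lt_glue t p _ _ (hc.lt j j' (by omega) (by omega) a b)
  · rintro (_ | j) (_ | j') hjj hj' a b
    · omega
    · exact (hc.mem j' (by omega) b).2 a
    · omega
    · exact hc.pat j j' (by omega) (by omega) a b
  · rw [Finset.sum_range_succ', add_comm]
    rfl

lemma best_step {G : Next V M × Ω → Next V M × Ω → Prop} {A : Fin q → Set (Next V M × Ω)}
    {x₀ : Fin q → Next V M × Ω} (hx₀ : ∀ a, x₀ a ∈ A a) (hx₀' : ∀ a, ∃ u, (x₀ a).1 = Next.mk false u)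
    (t : Fin M) (p : Fin M → V) (σ : Fin q → Fin q → Bool) (n : ℕ)
    (hne : ∀ b, (subA G A x₀ t p σ b).Nonempty) :
    offOnes (fun a b => σ b a) + best (subG G t p) (subA G A x₀ t p σ) n ≤ best G A (n + 1) :=
  (ach_step hx₀ hx₀' t p σ (ach_best n hne)).le_best

end stepconf

end Pool.Agent.H41.Ord
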