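import Mathlib

/-!
# Relative Turan densities of ordered graphs

An ordered graph with `n` vertices is a simple graph on `Fin n`, with the usual order.
-/

namespace Pool.Agent.H41.Ord

/-- The subgraph `G'` of the ordered graph `G` contains the ordered graph `F`: there is a strictly
increasing map from the vertices of `F` to the vertices of `G'` sending edges to edges. -/
def Contains {r n : ℕ} (F : SimpleGraph (Fin r)) {G : SimpleGraph (Fin n)} (G' : G.Subgraph) :
    Prop :=
  ∃ f : Fin r → Fin n, StrictMono f ∧ (∀ i, f i ∈ G'.verts) ∧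
    ∀ i j, F.Adj i j → G'.Adj (f i) (f j)

/-- `ρ_<(F,G)`: the largest value of `e(G')/e(G)` over the `F`-free subgraphs `G'` of `G`. -/
noncomputable def relTuran {r n : ℕ} (F : SimpleGraph (Fin r)) (G : SimpleGraph (Fin n)) : ℝ :=
  sSup {x : ℝ | ∃ G' : G.Subgraph, ¬ Contains F G' ∧
    x = (G'.edgeSet.ncard : ℝ) / (G.edgeSet.ncard : ℝ)}

/-- `ρ_<(F)`: the relative Turan density of `F`, the infimum of `ρ_<(F,G)` over all ordered graphs
`G` with at least one edge. -/
noncomputable def turanDensity {r : ℕ} (F : SimpleGraph (Fin r)) : ℝ :=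
  sInf {x : ℝ | ∃ (n : ℕ) (G : SimpleGraph (Fin n)), 1 ≤ G.edgeSet.ncard ∧ x = relTuran F G}

/-- `N(F,ε)`: the least number of vertices of an ordered graph `G` (with at least one edge) such
that `ρ_<(F,G) < ρ_<(F) + ε`. -/
noncomputable def hostSize {r : ℕ} (F : SimpleGraph (Fin r)) (ε : ℝ) : ℕ :=
  sInf {n : ℕ | ∃ G : SimpleGraph (Fin n), 1 ≤ G.edgeSet.ncard ∧
    relTuran F G < turanDensity F + ε}

end Pool.Agent.H41.Ord
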