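import Pool.Agent.H41.Ord.Main1

/-!
# Replacing weights by random labels: the distribution of the labels
-/

set_option linter.unusedSectionVars false

namespace Pool.Agent.H41.Ord

open Finset

section general

lemma avg_pi_prod {ι : Type*} [Fintype ι] [DecidableEq ι] {κ : ι → Type*} [∀ i, Fintype (κ i)]
    (h : ∀ i, κ i → ℝ) : avg (fun p : ∀ i, κ i => ∏ i, h i (p i)) = ∏ i, avg (h i) := by
  unfold avg
  rw [Finset.prod_div_distrib, Fintype.card_pi, Nat.cast_prod, Finset.prod_univ_sum,
    Fintype.piFinset_univ]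

/-- The average of a function of a finite-valued map. -/
lemma avg_push {α β : Type*} [Fintype α] [Fintype β] [DecidableEq β] (F : α → β) (φ : β → ℝ) :
    avg (fun a => φ (F a)) = ∑ b, φ b * avg (fun a => if F a = b then (1 : ℝ) else 0) := by
  have h1 : ∀ b, φ b * avg (fun a => if F a = b then (1 : ℝ) else 0) =
      avg (fun a => φ b * if F a = b then (1 : ℝ) else 0) := fun b => (avg_mul_left _ _).symm
  simp only [h1]
  rw [← avg_sum]
  apply avg_congr
  intro a
  rw [Finset.sum_eq_single (F a)]
  · simp
  · intro b _ hb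
    rw [if_neg (Ne.symm hb), mul_zero]
  · simp

lemma avg_single {β : Type*} [Fintype β] [DecidableEq β] (b : β) :
    avg (fun a : β => if a = b then (1 : ℝ) else 0) = 1 / Fintype.card β := by
  unfold avg
  rw [Finset.sum_ite_eq' univ b]
  simp

/-- Two coordinates of a random function are independent and uniform. -/
lemma avg_two {ι β : Type*} [Fintype ι] [DecidableEq ι] [Fintype β] [DecidableEq β] [Nonempty β]
    {x y : ι} (hxy : x ≠ y) (a b : β) :
    avg (fun t : ι → β => if t x = a ∧ t y = b then (1 : ℝ) else 0) =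
      1 / (Fintype.card β : ℝ) ^ 2 := by
  have h := avg_pi_prod (κ := fun _ : ι => β)
    (fun i (c : β) => if i = x then (if c = a then (1 : ℝ) else 0) else
      if i = y then (if c = b then (1 : ℝ) else 0) else 1)
  have h1 : ∀ t : ι → β, ∏ i, (if i = x then (if t i = a then (1 : ℝ) else 0) else
      if i = y then (if t i = b then (1 : ℝ) else 0) else 1) =
      if t x = a ∧ t y = b then (1 : ℝ) else 0 := by
    intro t
    by_cases h2 : t x = a ∧ t y = b
    · rw [if_pos h2]
      apply Finset.prod_eq_one
      intro i _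
      by_cases h3 : i = x
      · rw [if_pos h3, h3, if_pos h2.1]
      · rw [if_neg h3]
        by_cases h4 : i = y
        · rw [if_pos h4, h4, if_pos h2.2]
        · rw [if_neg h4]
    · rw [if_neg h2]
      rcases not_and_or.1 h2 with h3 | h3
      · apply Finset.prod_eq_zero (Finset.mem_univ x)
        rw [if_pos rfl, if_neg h3]
      · apply Finset.prod_eq_zero (Finset.mem_univ y)
        rw [if_neg hxy.symm, if_pos rfl, if_neg h3]
  simp only [h1] at h
  rw [h]
  have hy : y ∈ univ.erase x := Finset.mem_erase.2 ⟨hxy.symm, Finset.mem_univ y⟩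
  rw [← Finset.mul_prod_erase univ _ (Finset.mem_univ x), ← Finset.mul_prod_erase _ _ hy]
  rw [Finset.prod_eq_one]
  · have e1 : avg (fun c : β => if x = x then (if c = a then (1 : ℝ) else 0) else
        if x = y then (if c = b then (1 : ℝ) else 0) else 1) = 1 / Fintype.card β := by
      rw [← avg_single a]
      apply avg_congr
      intro c
      rw [if_pos rfl]
    have e2 : avg (fun c : β => if y = x then (if c = a then (1 : ℝ) else 0) else
        if y = y then (if c = b then (1 : ℝ) else 0) else 1) = 1 / Fintype.card β := by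
      rw [← avg_single b]
      apply avg_congr
      intro c
      rw [if_neg hxy.symm, if_pos rfl]
    rw [e1, e2, mul_one, ← pow_two, div_pow, one_pow]
  · intro i hi
    have h2 := Finset.mem_erase.1 hi
    have h3 := Finset.mem_erase.1 h2.2
    have : ∀ c : β, (if i = x then (if c = a then (1 : ℝ) else 0) else
        if i = y then (if c = b then (1 : ℝ) else 0) else 1) = 1 := by
      intro c
      rw [if_neg h3.1, if_neg h2.1]
    simp only [this]
    exact avg_const 1

end general

section labels

variable {V : Type} [Fintype V] [LinearOrder V]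

/-- Labels. -/
abbrev Lab (V : Type) (Q : ℕ) : Type := V × V → ZMod Q

/-- The parameters of a random choice of labels. -/
abbrev Par (V : Type) (Q : ℕ) (n : V × V → ℕ) : Type :=
  ∀ e : V × V, Fin (n e) × (V → ZMod Q)

/-- One coordinate of a label. -/
def lamC {Q k : ℕ} (e : V × V) (s : Fin k × (V → ZMod Q)) (z : V) : ZMod Q :=
  if e.1 < e.2 ∧ z = e.2 then s.2 e.1 - (s.1 : ℕ) else s.2 z

/-- The label of the vertex `z`. -/
def lam {Q : ℕ} {n : V × V → ℕ} (p : Par V Q n) (z : V) : Lab V Q := fun e => lamC e (p e) z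

variable {Q : ℕ} [NeZero Q]

lemma lamC_ne {k : ℕ} [NeZero k] {x y : V} (hxy : x < y) {e : V × V} (he : e ≠ (x, y))
    (a b : ZMod Q) :
    avg (fun s : Fin k × (V → ZMod Q) => if lamC e s x = a ∧ lamC e s y = b then (1 : ℝ) else 0) =
      1 / (Q : ℝ) ^ 2 := by
  have hne : x ≠ y := hxy.ne
  rw [avg_prod]
  have key : ∀ i : Fin k, avg (fun t : V → ZMod Q =>
      if lamC e (i, t) x = a ∧ lamC e (i, t) y = b then (1 : ℝ) else 0) = 1 / (Q : ℝ) ^ 2 := by
    intro i
    have hcard : (Fintype.card (ZMod Q) : ℝ) = Q := by rw [ZMod.card]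
    by_cases h1 : e.1 < e.2 ∧ y = e.2
    · have hx : x ≠ e.1 := by
        rintro rfl
        exact he (Prod.ext rfl h1.2.symm)
      have hx2 : ¬ (e.1 < e.2 ∧ x = e.2) := by
        rintro ⟨-, h⟩
        exact hne (h.trans h1.2.symm)
      rw [← hcard, ← avg_two hx a (b + ((i : ℕ) : ZMod Q))]
      apply avg_congr
      intro t
      unfold lamC
      rw [if_pos h1, if_neg hx2]
      simp only [sub_eq_iff_eq_add]
    · by_cases h2 : e.1 < e.2 ∧ x = e.2
      · have hy : e.1 ≠ y := by
          have : e.1 < y := by rw [h2.2] at hxy; exact h2.1.trans hxy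
          exact this.ne
        rw [← hcard, ← avg_two hy (a + ((i : ℕ) : ZMod Q)) b]
        apply avg_congr
        intro t
        unfold lamC
        rw [if_pos h2, if_neg h1]
        simp only [sub_eq_iff_eq_add]
      · rw [← hcard, ← avg_two hne a b]
        apply avg_congr
        intro t
        unfold lamC
        rw [if_neg h1, if_neg h2]
  simp only [key]
  exact avg_const _

lemma val_natCast_of_lt {k : ℕ} (hk : k < Q) : ((k : ℕ) : ZMod Q).val = k := ZMod.val_natCast_of_lt hk

lemma lamC_eq {k : ℕ} [NeZero k] (hk : k ≤ Q) {x y : V} (hxy : x < y)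
    (a b : ZMod Q) :
    avg (fun s : Fin k × (V → ZMod Q) =>
      if lamC (x, y) s x = a ∧ lamC (x, y) s y = b then (1 : ℝ) else 0) =
      if (a - b).val < k then 1 / ((Q : ℝ) * k) else 0 := by
  have hne : x ≠ y := hxy.ne
  have hx2 : ¬ (((x, y) : V × V).1 < ((x, y) : V × V).2 ∧ x = ((x, y) : V × V).2) := by
    rintro ⟨-, h⟩
    exact hne h
  have hy : (((x, y) : V × V).1 < ((x, y) : V × V).2 ∧ y = ((x, y) : V × V).2) := ⟨hxy, rfl⟩
  have hprod : ∀ s : Fin k × (V → ZMod Q),
      (if lamC (x, y) s x = a ∧ lamC (x, y) s y = b then (1 : ℝ) else 0) =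
      (if s.2 x = a then (1 : ℝ) else 0) * (if ((s.1 : ℕ) : ZMod Q) = a - b then (1 : ℝ) else 0) := by
    rintro ⟨i, t⟩
    unfold lamC
    rw [if_neg hx2, if_pos hy]
    simp only
    by_cases h1 : t x = a
    · rw [if_pos h1, one_mul]
      by_cases h2 : ((i : ℕ) : ZMod Q) = a - b
      · rw [if_pos h2, if_pos]
        refine ⟨h1, ?_⟩
        rw [h1, h2]; ring
      · rw [if_neg h2, if_neg]
        rintro ⟨-, h3⟩
        apply h2
        rw [h1] at h3
        rw [← h3]; ring
    · rw [if_neg h1, if_neg, zero_mul]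
      rintro ⟨h, -⟩
      exact h1 h
  simp only [hprod]
  rw [avg_prod]
  have h1 : avg (fun t : V → ZMod Q => if t x = a then (1 : ℝ) else 0) = 1 / Q := by
    have h := avg_pi_prod (κ := fun _ : V => ZMod Q)
      (fun i (c : ZMod Q) => if i = x then (if c = a then (1 : ℝ) else 0) else 1)
    have h2 : ∀ t : V → ZMod Q, ∏ i, (if i = x then (if t i = a then (1 : ℝ) else 0) else 1) =
        if t x = a then (1 : ℝ) else 0 := by
      intro t
      rw [Finset.prod_ite_eq' univ x (fun i => if t i = a then (1 : ℝ) else 0)]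
      simp
    simp only [h2] at h
    rw [h]
    rw [← Finset.mul_prod_erase univ _ (Finset.mem_univ x), Finset.prod_eq_one]
    · have e1 : avg (fun c : ZMod Q => if x = x then (if c = a then (1 : ℝ) else 0) else 1) =
          1 / Q := by
        have hcard : (Fintype.card (ZMod Q) : ℝ) = Q := by rw [ZMod.card]
        rw [← hcard, ← avg_single a]
        apply avg_congr
        intro c
        rw [if_pos rfl]
      rw [e1, mul_one]
    · intro i hi
      have h2 := Finset.mem_erase.1 hi
      have : ∀ c : ZMod Q, (if i = x then (if c = a then (1 : ℝ) else 0) else 1) = 1 := by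
        intro c
        rw [if_neg h2.1]
      simp only [this]
      exact avg_const 1
  have h1' : ∀ i : Fin k, avg (fun t : V → ZMod Q => (if t x = a then (1 : ℝ) else 0) *
      (if ((i : ℕ) : ZMod Q) = a - b then (1 : ℝ) else 0)) =
      1 / Q * (if ((i : ℕ) : ZMod Q) = a - b then (1 : ℝ) else 0) := by
    intro i
    rw [avg_mul_right, h1]
  rw [avg_congr h1', avg_mul_left]
  -- the offset
  have h2 : avg (fun i : Fin k => if ((i : ℕ) : ZMod Q) = a - b then (1 : ℝ) else 0) =
      if (a - b).val < k then 1 / (k : ℝ) else 0 := by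
    have h3 : ∀ i : Fin k, (((i : ℕ) : ZMod Q) = a - b ↔ (i : ℕ) = (a - b).val) := by
      intro i
      have hi : (i : ℕ) < Q := lt_of_lt_of_le i.2 hk
      constructor
      · intro h
        rw [← h, ZMod.val_natCast_of_lt hi]
      · intro h
        rw [h, ZMod.natCast_zmod_val]
    simp only [h3]
    by_cases h4 : (a - b).val < k
    · rw [if_pos h4]
      have h5 := avg_single (⟨(a - b).val, h4⟩ : Fin k)
      rw [Fintype.card_fin] at h5
      rw [← h5]
      apply avg_congr
      intro i
      simp only [Fin.ext_iff]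
    · rw [if_neg h4]
      have : ∀ i : Fin k, (if (i : ℕ) = (a - b).val then (1 : ℝ) else 0) = 0 := by
        intro i
        rw [if_neg]
        intro h
        exact h4 (h ▸ i.2)
      simp only [this]
      exact avg_const 0
  rw [h2]
  split_ifs
  · rw [one_div, one_div, one_div, mul_inv]
  · rw [mul_zero]

/-- The distribution of the labels of two vertices. -/
lemma avg_lam {n : V × V → ℕ} [∀ e, NeZero (n e)] {x y : V} (hxy : x < y) (hn : n (x, y) ≤ Q)
    (g : Lab V Q → Lab V Q → ℝ)
    (hg : ∀ c c', ¬ (c (x, y) - c' (x, y)).val < n (x, y) → g c c' = 0) :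
    avg (fun p : Par V Q n => g (lam p x) (lam p y)) =
      ((1 / (Q : ℝ) ^ 2) ^ (Fintype.card V ^ 2 - 1) / Q) / n (x, y) *
        ∑ c, ∑ c', g c c' := by
  classical
  rw [avg_push (fun p : Par V Q n => (lam p x, lam p y)) (fun c => g c.1 c.2),
    ← Finset.univ_product_univ, Finset.sum_product, Finset.mul_sum]
  apply Finset.sum_congr rfl
  intro c _
  rw [Finset.mul_sum]
  apply Finset.sum_congr rfl
  intro c' _
  simp only
  rw [mul_comm]
  by_cases hc : (c (x, y) - c' (x, y)).val < n (x, y)
  swap
  · rw [hg c c' hc]; ring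
  congr 1
  have h1 : ∀ p : Par V Q n, (if (lam p x, lam p y) = (c, c') then (1 : ℝ) else 0) =
      ∏ e, (if lamC e (p e) x = c e ∧ lamC e (p e) y = c' e then (1 : ℝ) else 0) := by
    intro p
    by_cases h : (lam p x, lam p y) = (c, c')
    · rw [if_pos h]
      symm
      apply Finset.prod_eq_one
      intro e _
      rw [if_pos]
      rw [Prod.mk.injEq] at h
      exact ⟨congrFun h.1 e, congrFun h.2 e⟩
    · rw [if_neg h]
      symm
      have : ∃ e, ¬ (lamC e (p e) x = c e ∧ lamC e (p e) y = c' e) := by
        by_contra hno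
        push Not at hno
        exact h (Prod.ext (funext fun e => (hno e).1) (funext fun e => (hno e).2))
      obtain ⟨e, he⟩ := this
      apply Finset.prod_eq_zero (Finset.mem_univ e)
      rw [if_neg he]
  simp only [h1]
  have h2 := avg_pi_prod (κ := fun e : V × V => Fin (n e) × (V → ZMod Q))
    (fun e s => if lamC e s x = c e ∧ lamC e s y = c' e then (1 : ℝ) else 0)
  rw [h2, ← Finset.mul_prod_erase univ _ (Finset.mem_univ (x, y)), lamC_eq hn hxy, if_pos hc]
  rw [Finset.prod_congr rfl (g := fun _ => 1 / (Q : ℝ) ^ 2)]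
  · rw [Finset.prod_const, Finset.card_erase_of_mem (Finset.mem_univ _), Finset.card_univ,
      Fintype.card_prod, pow_two (Fintype.card V)]
    field_simp
  · intro e he
    exact lamC_ne hxy (Finset.ne_of_mem_erase he) _ _

/-- The labels of `x < y` satisfy the constraint. -/
lemma lam_edge {n : V × V → ℕ} {x y : V} (hxy : x < y) (hn : n (x, y) ≤ Q) (p : Par V Q n) :
    (lam p x (x, y) - lam p y (x, y)).val < n (x, y) := by
  have hne : x ≠ y := hxy.ne
  have hx2 : ¬ (((x, y) : V × V).1 < ((x, y) : V × V).2 ∧ x = ((x, y) : V × V).2) := by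
    rintro ⟨-, h⟩
    exact hne h
  have hy : (((x, y) : V × V).1 < ((x, y) : V × V).2 ∧ y = ((x, y) : V × V).2) := ⟨hxy, rfl⟩
  unfold lam lamC
  rw [if_neg hx2, if_pos hy, sub_sub_cancel]
  have h1 := (p (x, y)).1.2
  rw [ZMod.val_natCast_of_lt (lt_of_lt_of_le h1 hn)]
  exact h1

end labels

end Pool.Agent.H41.Ord
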