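import Pool.Agent.H41.Ord.Lower

/-!
# Dense relations on the hosts contain `F`
-/

set_option linter.unusedSectionVars false

namespace Pool.Agent.H41.Ord

open Finset

lemma offOnes_eq_sum_rel {q : ℕ} (D : Fin q → Fin q → Bool) :
    (offOnes D : ℝ) = ∑ a, ∑ b, rel (fun a b => a ≠ b ∧ D a b = true) a b := by
  classical
  unfold offOnes rel
  push_cast
  apply Finset.sum_congr rfl fun a _ => Finset.sum_congr rfl fun b _ => ?_
  by_cases h : a ≠ b ∧ D a b = true
  · rw [if_pos h, if_pos h]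
  · rw [if_neg h, if_neg h]

/-- The embedding of `F` from many equal patterns. -/
lemma embed_of_fiber {r q ℓ : ℕ} {F : SimpleGraph (Fin r)} {V : Type} [LinearOrder V]
    {G : V → V → Prop} {x : ℕ → Fin q → V} {D : ℕ → Fin q → Fin q → Bool}
    (hlt : ∀ j j', j < j' → j' ≤ ℓ → ∀ a b, x j a < x j' b)
    (hpat : ∀ j j', j < j' → j' ≤ ℓ → ∀ a b, (G (x j a) (x j' b) ↔ D j a b = true))
    (hq : 0 < q) {D₀ : Fin q → Fin q → Bool} {T : Finset ℕ} (hT : T ⊆ range ℓ)
    (hTD : ∀ j ∈ T, D j = D₀) (hTc : T.card = r + 1)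
    (hdens : turanDensity F < (offOnes D₀ : ℝ) / (q * q)) :
    ∃ f : Fin r → V, StrictMono f ∧ (∀ i j, i < j → F.Adj i j → G (f i) (f j)) ∧
      ∀ i, ∃ y, (f i < y ∧ G (f i) y) ∨ (y < f i ∧ G y (f i)) := by
  classical
  rw [offOnes_eq_sum_rel] at hdens
  obtain ⟨φ, hφ⟩ := exists_hom_of_gt hq _ hdens
  -- a pair of labels with an edge
  have hab : ∃ a b, a ≠ b ∧ D₀ a b = true := by
    by_contra hno
    push Not at hno
    have : ∑ a, ∑ b, rel (fun a b => a ≠ b ∧ D₀ a b = true) a b = 0 := by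
      apply Finset.sum_eq_zero fun a _ => Finset.sum_eq_zero fun b _ => ?_
      unfold rel
      rw [if_neg]
      rintro ⟨h1, h2⟩
      exact hno a b h1 h2
    rw [this, zero_div] at hdens
    exact absurd hdens (not_lt.2 (turanDensity_nonneg F))
  obtain ⟨a₀, b₀, -, hD₀⟩ := hab
  let e := T.orderEmbOfFin hTc
  have he : ∀ i, e i ∈ T := fun i => T.orderEmbOfFin_mem hTc i
  have heℓ : ∀ i, e i < ℓ := fun i => Finset.mem_range.1 (hT (he i))
  let ψ : Fin r → Fin q := fun i => if ∃ j, F.Adj i j then φ i else a₀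
  have hψ : ∀ i j, F.Adj i j → ψ i = φ i := fun i j h => if_pos ⟨j, h⟩
  let f : Fin r → V := fun i => x (e i.castSucc) (ψ i)
  have hf : ∀ i j, i < j → F.Adj i j → G (f i) (f j) := by
    intro i j hij hF
    have hlt' : e i.castSucc < e j.castSucc := e.strictMono (by simpa using hij)
    apply (hpat _ _ hlt' (heℓ _).le _ _).2
    rw [hTD _ (he _), hψ i j hF, hψ j i hF.symm]
    exact (hφ i j hij hF).2
  have hmono : StrictMono f := by
    intro i j hij
    have hlt' : e i.castSucc < e j.castSucc := e.strictMono (by simpa using hij)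
    exact hlt _ _ hlt' (heℓ _).le _ _
  refine ⟨f, hmono, hf, ?_⟩
  intro i
  by_cases h : ∃ j, F.Adj i j
  · obtain ⟨j, hj⟩ := h
    rcases lt_or_gt_of_ne hj.ne with hlt' | hlt'
    · exact ⟨f j, Or.inl ⟨hmono hlt', hf i j hlt' hj⟩⟩
    · exact ⟨f j, Or.inr ⟨hmono hlt', hf j i hlt' hj.symm⟩⟩
  · have hψi : ψ i = a₀ := if_neg h
    have hlt' : e i.castSucc < e (Fin.last r) := e.strictMono (Fin.castSucc_lt_last i)
    refine ⟨x (e (Fin.last r)) b₀, Or.inl ⟨hlt _ _ hlt' (heℓ _).le _ _, ?_⟩⟩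
    apply (hpat _ _ hlt' (heℓ _).le _ _).2
    rw [hTD _ (he _), hψi]
    exact hD₀

/-- Dense relations contain `F`. -/
lemma embed_of_dense {r q N ℓ : ℕ} {F : SimpleGraph (Fin r)} {ε s : ℝ} (hε : 0 < ε) (hε1 : ε < 1)
    (hq : 8 / ε ≤ q) (hN : 4 * (r + 1) * 2 ^ (q * q) / ε ≤ N) (hℓ : ℓ ≤ N)
    {V : Type} [LinearOrder V] {G : V → V → Prop} {x : ℕ → Fin q → V}
    {D : ℕ → Fin q → Fin q → Bool}
    (hlt : ∀ j j', j < j' → j' ≤ ℓ → ∀ a b, x j a < x j' b)
    (hpat : ∀ j j', j < j' → j' ≤ ℓ → ∀ a b, (G (x j a) (x j' b) ↔ D j a b = true))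
    (hs : N * (turanDensity F + ε) ≤ s)
    (hval : q * (q - 1) * s - 1 ≤ ((∑ j ∈ range ℓ, offOnes (D j) : ℕ) : ℝ)) :
    ∃ f : Fin r → V, StrictMono f ∧ (∀ i j, i < j → F.Adj i j → G (f i) (f j)) ∧
      ∀ i, ∃ y, (f i < y ∧ G (f i) y) ∨ (y < f i ∧ G y (f i)) := by
  classical
  set ρ := turanDensity F with hρ
  have hρ0 : 0 ≤ ρ := turanDensity_nonneg F
  have hρ1 : ρ ≤ 1 := turanDensity_le_one F
  have hq8 : (8 : ℝ) < q := lt_of_lt_of_le (by rw [lt_div_iff₀ hε]; linarith) hq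
  have hqpos : 0 < q := by
    have : (0 : ℝ) < q := by linarith
    exact_mod_cast this
  have hqε : 8 ≤ q * ε := by rwa [div_le_iff₀ hε] at hq
  have hNε : 4 * ((r : ℝ) + 1) * 2 ^ (q * q) ≤ N * ε := by rwa [div_le_iff₀ hε] at hN
  have hpow : (1 : ℝ) ≤ 2 ^ (q * q) := one_le_pow₀ (by norm_num)
  have hr0 : (0 : ℝ) ≤ r := Nat.cast_nonneg r
  have hNε4 : 4 ≤ N * ε := by nlinarith
  set good := (range ℓ).filter (fun j => ρ * (q * q) < (offOnes (D j) : ℝ)) with hgood
  have htotal : ((∑ j ∈ range ℓ, offOnes (D j) : ℕ) : ℝ) ≤ good.card * (q * q) + N * (ρ * (q * q)) := by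
    push_cast
    rw [← Finset.sum_filter_add_sum_filter_not (range ℓ)
      (fun j => ρ * (q * q) < (offOnes (D j) : ℝ))]
    apply add_le_add
    · calc ∑ j ∈ good, (offOnes (D j) : ℝ) ≤ ∑ _j ∈ good, (q * q : ℝ) := by
            apply Finset.sum_le_sum
            intro j _
            exact_mod_cast offOnes_le (D j)
        _ = good.card * (q * q) := by rw [Finset.sum_const, nsmul_eq_mul]
    · calc ∑ j ∈ (range ℓ).filter (fun j => ¬ ρ * (q * q) < (offOnes (D j) : ℝ)), (offOnes (D j) : ℝ)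
          ≤ ∑ _j ∈ (range ℓ).filter (fun j => ¬ ρ * (q * q) < (offOnes (D j) : ℝ)),
            (ρ * (q * q) : ℝ) := by
            apply Finset.sum_le_sum
            intro j hj
            exact not_lt.1 (Finset.mem_filter.1 hj).2
        _ = ((range ℓ).filter (fun j => ¬ ρ * (q * q) < (offOnes (D j) : ℝ))).card *
            (ρ * (q * q)) := by rw [Finset.sum_const, nsmul_eq_mul]
        _ ≤ N * (ρ * (q * q)) := by
            have h1 : ((range ℓ).filter (fun j => ¬ ρ * (q * q) < (offOnes (D j) : ℝ))).card ≤ N :=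
              (Finset.card_filter_le _ _).trans (by simpa using hℓ)
            have h2 : (0 : ℝ) ≤ ρ * (q * q) := by positivity
            exact mul_le_mul_of_nonneg_right (by exact_mod_cast h1) h2
  -- the number of good indices
  have hQ : (0 : ℝ) < q * q := by positivity
  have hgoodcard : (N : ℝ) * ε / 2 ≤ good.card := by
    have h1 : (q : ℝ) * (q - 1) * (N * (ρ + ε)) ≤ q * (q - 1) * s := by
      apply mul_le_mul_of_nonneg_left hs
      apply mul_nonneg (by linarith) (by linarith)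
    have h2 : (q : ℝ) * (q - 1) * (N * (ρ + ε)) - 1 ≤
        good.card * (q * q) + N * (ρ * (q * q)) := by linarith
    have h3 : (q * q : ℝ) * (N * ε) - q * N * (ρ + ε) - 1 ≤ good.card * (q * q) := by
      nlinarith
    have hN0 : (0 : ℝ) ≤ N := Nat.cast_nonneg N
    have h4 : (q : ℝ) * N * (ρ + ε) ≤ (q * q) * (N * ε) / 4 := by
      have : (ρ + ε) ≤ 2 := by linarith
      have hqN : (0 : ℝ) ≤ q * N := by positivity
      calc (q : ℝ) * N * (ρ + ε) ≤ q * N * 2 := by gcongr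
        _ = q * N * 8 / 4 := by ring
        _ ≤ q * N * (q * ε) / 4 := by gcongr
        _ = _ := by ring
    have h5 : (1 : ℝ) ≤ (q * q) * (N * ε) / 4 := by
      have hq1 : (1 : ℝ) ≤ q * q := by nlinarith
      nlinarith
    have h6 : (N : ℝ) * ε / 2 * (q * q) ≤ good.card * (q * q) := by nlinarith
    exact le_of_mul_le_mul_right h6 hQ
  -- pigeonhole
  have hmul : Fintype.card (Fin q → Fin q → Bool) * r < good.card := by
    rw [card_pat]
    have : ((2 ^ (q * q) * r : ℕ) : ℝ) < good.card := by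
      push_cast
      refine lt_of_lt_of_le ?_ hgoodcard
      have : (2 : ℝ) ^ (q * q) * r < 4 * (r + 1) * 2 ^ (q * q) / 2 := by nlinarith
      linarith
    exact_mod_cast this
  obtain ⟨D₀, -, hD₀⟩ := Finset.exists_lt_card_fiber_of_mul_lt_card_of_maps_to
    (f := D) (s := good) (t := univ) (fun _ _ => Finset.mem_univ _) (by
      rw [Finset.card_univ]; exact hmul)
  obtain ⟨T, hTs, hTc⟩ := Finset.exists_subset_card_eq hD₀
  have hTgood : ∀ j ∈ T, j ∈ range ℓ ∧ ρ * (q * q) < (offOnes (D j) : ℝ) ∧ D j = D₀ := by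
    intro j hj
    have h1 := Finset.mem_filter.1 (hTs hj)
    have h2 := Finset.mem_filter.1 h1.1
    exact ⟨h2.1, h2.2, h1.2⟩
  have hTne : T.Nonempty := Finset.card_pos.1 (by rw [hTc]; omega)
  obtain ⟨j₀, hj₀⟩ := hTne
  have hdens : ρ < (offOnes D₀ : ℝ) / (q * q) := by
    rw [lt_div_iff₀ hQ]
    have := hTgood j₀ hj₀
    rw [← this.2.2]
    exact this.2.1
  exact embed_of_fiber hlt hpat hqpos (fun j hj => (hTgood j hj).1) (fun j hj => (hTgood j hj).2.2)
    hTc hdens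

end Pool.Agent.H41.Ord
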