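import Pool.Agent.H41.Ord.Deweight1
import Pool.Agent.H41.Ord.Embed

/-!
# Replacing weights by random labels: transfer to graphs on `Fin k`
-/

set_option linter.unusedSectionVars false

namespace Pool.Agent.H41.Ord

open Finset

/-- `g` contains `F` in the order of `W`, with all vertices non-isolated. -/
def Embeds {r : ℕ} (F : SimpleGraph (Fin r)) {W : Type} [LinearOrder W] (g : W → W → Prop) : Prop :=
  ∃ f : Fin r → W, StrictMono f ∧ (∀ i j, i < j → F.Adj i j → g (f i) (f j)) ∧
    ∀ i, ∃ y, (f i < y ∧ g (f i) y) ∨ (y < f i ∧ g y (f i))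

/-- Transfer to graphs on `Fin k`. -/
lemma hostSize_le_of {r : ℕ} (F : SimpleGraph (Fin r)) {ε c : ℝ} {W : Type} [Fintype W]
    [LinearOrder W] (E : W → W → Prop) (hE : ∀ x y, E x y → x < y) (hne : ∃ x y, E x y)
    (hc0 : 0 ≤ c) (hc : c < turanDensity F + ε)
    (h : ∀ g : W → W → Prop, (∀ x y, g x y → E x y) → ¬ Embeds F g →
      ∑ x, ∑ y, rel g x y ≤ c * ∑ x, ∑ y, rel E x y) :
    hostSize F ε ≤ Fintype.card W := by
  classical
  let e : Fin (Fintype.card W) ≃o W := Fintype.orderIsoFinOfCardEq W rfl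
  let Γ : SimpleGraph (Fin (Fintype.card W)) :=
    { Adj := fun i j => E (e i) (e j) ∨ E (e j) (e i)
      symm := ⟨fun i j hij => hij.symm⟩
      loopless := ⟨fun i hi => by
        rcases hi with hi | hi <;> exact lt_irrefl _ (hE _ _ hi)⟩ }
  have hΓsum : (Γ.edgeSet.ncard : ℝ) = ∑ x, ∑ y, rel E x y := by
    rw [edgeSet_ncard_eq_sum, ← Equiv.sum_comp e.toEquiv (fun x => ∑ y, rel E x y)]
    apply Finset.sum_congr rfl
    intro i _
    rw [← Equiv.sum_comp e.toEquiv (fun y => rel E _ y)]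
    apply Finset.sum_congr rfl
    intro j _
    change (if i < j then rel Γ.Adj i j else 0) = rel E (e i) (e j)
    unfold rel
    by_cases hij : i < j
    · rw [if_pos hij]
      have : Γ.Adj i j ↔ E (e i) (e j) := by
        constructor
        · rintro (h1 | h1)
          · exact h1
          · exact absurd (hE _ _ h1) (not_lt.2 (e.monotone hij.le))
        · exact fun h1 => Or.inl h1
      simp only [this]
    · rw [if_neg hij, if_neg]
      intro h1
      exact hij (e.lt_iff_lt.1 (hE _ _ h1))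
  have hpos : 1 ≤ Γ.edgeSet.ncard := by
    obtain ⟨x, y, hxy⟩ := hne
    have h1 : (0 : ℝ) < ∑ x, ∑ y, rel E x y := by
      have h2 : rel E x y = 1 := by unfold rel; rw [if_pos hxy]
      calc (0 : ℝ) < rel E x y := by rw [h2]; norm_num
        _ ≤ ∑ y, rel E x y := Finset.single_le_sum (f := fun y => rel E x y)
            (fun _ _ => rel_nonneg _ _ _) (Finset.mem_univ y)
        _ ≤ ∑ x, ∑ y, rel E x y := Finset.single_le_sum (f := fun x => ∑ y, rel E x y)
            (fun _ _ => Finset.sum_nonneg fun _ _ => rel_nonneg _ _ _) (Finset.mem_univ x)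
    rw [← hΓsum] at h1
    exact_mod_cast h1
  apply Nat.sInf_le
  refine ⟨Γ, hpos, lt_of_le_of_lt ?_ hc⟩
  apply Real.sSup_le _ hc0
  rintro x ⟨G', hG', rfl⟩
  have hpos' : (0 : ℝ) < Γ.edgeSet.ncard := by exact_mod_cast hpos
  rw [div_le_iff₀ hpos']
  -- the relation of `G'`
  let g : W → W → Prop := fun x y => x < y ∧ G'.Adj (e.symm x) (e.symm y)
  have hg1 : ∀ x y, g x y → E x y := by
    rintro x y ⟨h1, h2⟩
    have h3 := G'.adj_sub h2
    rcases h3 with h3 | h3
    · simpa using h3
    · have h4 := hE _ _ h3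
      simp only [OrderIso.apply_symm_apply] at h4
      exact absurd h4 (not_lt.2 h1.le)
  have hg2 : ¬ Embeds F g := by
    rintro ⟨f, hf1, hf2, hf3⟩
    apply hG'
    refine ⟨fun i => e.symm (f i), fun i j hij => e.symm.strictMono (hf1 hij), ?_, ?_⟩
    · intro i
      obtain ⟨y, ⟨-, -, hy⟩ | ⟨-, -, hy⟩⟩ := hf3 i
      · exact G'.edge_vert hy
      · exact G'.edge_vert hy.symm
    · intro i j hij
      rcases lt_or_gt_of_ne hij.ne with h1 | h1
      · exact (hf2 i j h1 hij).2
      · exact (hf2 j i h1 hij.symm).2.symm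
  have hG'sum : (G'.edgeSet.ncard : ℝ) = ∑ x, ∑ y, rel g x y := by
    rw [subgraph_ncard_eq_sum, ← Equiv.sum_comp e.toEquiv (fun x => ∑ y, rel g x y)]
    apply Finset.sum_congr rfl
    intro i _
    rw [← Equiv.sum_comp e.toEquiv (fun y => rel g _ y)]
    apply Finset.sum_congr rfl
    intro j _
    change (if i < j then rel G'.Adj i j else 0) = rel g (e i) (e j)
    unfold rel
    by_cases hij : i < j
    · rw [if_pos hij]
      have : g (e i) (e j) ↔ G'.Adj i j := by
        constructor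
        · rintro ⟨-, h1⟩
          simpa using h1
        · intro h1
          refine ⟨e.strictMono hij, ?_⟩
          simpa using h1
      simp only [this]
    · rw [if_neg hij, if_neg]
      intro h1
      exact hij (e.lt_iff_lt.1 h1.1)
  rw [hG'sum, hΓsum]
  exact h g hg1 hg2

section blow

/-- The blow-up of `V` with labels. -/
def BlowUp (V L : Type) : Type := V × L

instance (V L : Type) [Fintype V] [Fintype L] : Fintype (BlowUp V L) :=
  inferInstanceAs (Fintype (V × L))

lemma card_blowUp (V L : Type) [Fintype V] [Fintype L] :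
    Fintype.card (BlowUp V L) = Fintype.card V * Fintype.card L := by
  have : Fintype.card (BlowUp V L) = Fintype.card (V × L) := rfl
  rw [this, Fintype.card_prod]

lemma sum_blowUp (V L : Type) [Fintype V] [Fintype L] (f : BlowUp V L → ℝ) :
    ∑ z, f z = ∑ x : V, ∑ c : L, f (x, c) := by
  exact Fintype.sum_prod_type (f := (f : V × L → ℝ))

noncomputable instance (V L : Type) [LinearOrder V] [Fintype L] : LinearOrder (BlowUp V L) :=
  LinearOrder.lift' (fun z : V × L => (toLex (z.1, Fintype.equivFin L z.2) :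
      V ×ₗ Fin (Fintype.card L)))
    (by
      intro x y h
      have := toLex.injective h
      simp only [Prod.mk.injEq, EmbeddingLike.apply_eq_iff_eq] at this
      exact Prod.ext this.1 this.2)

lemma blowUp_lt {V L : Type} [LinearOrder V] [Fintype L] {z z' : BlowUp V L} (h : z.1 < z'.1) :
    z < z' := by
  change (toLex (z.1, Fintype.equivFin L z.2) : V ×ₗ Fin (Fintype.card L)) <
    toLex (z'.1, Fintype.equivFin L z'.2)
  rw [Prod.Lex.toLex_lt_toLex]
  exact Or.inl h

end blow

section weights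

variable {V : Type} [Fintype V] [LinearOrder V] {N : ℕ} {c : ℝ} (H : Host V N c)

/-- The weight of a pair. -/
noncomputable def Host.w (x y : V) : ℝ :=
  H.S (fun x' y' => if x' = x ∧ y' = y then 1 else 0)

lemma Host.S_eq (g : V → V → ℝ) : H.S g = ∑ x, ∑ y, g x y * H.w x y := by
  have h1 : g = ∑ x, ∑ y, g x y • (fun x' y' : V => if x' = x ∧ y' = y then (1 : ℝ) else 0) := by
    funext x' y'
    simp only [Finset.sum_apply, Pi.smul_apply, smul_eq_mul]
    rw [Finset.sum_eq_single x', Finset.sum_eq_single y']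
    · simp
    · intro y _ hy
      simp [Ne.symm hy]
    · simp
    · intro x _ hx
      apply Finset.sum_eq_zero
      intro y _
      simp [Ne.symm hx]
    · simp
  conv_lhs => rw [h1]
  rw [map_sum]
  apply Finset.sum_congr rfl
  intro x _
  rw [map_sum]
  apply Finset.sum_congr rfl
  intro y _
  rw [map_smul, smul_eq_mul]
  rfl

lemma Host.S_zero' : H.S (fun _ _ => 0) = 0 := map_zero H.S

lemma Host.w_nonneg (x y : V) : 0 ≤ H.w x y := by
  rw [← H.S_zero']
  apply H.mono
  intro x' y' _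
  split_ifs <;> norm_num

lemma Host.w_eq_zero {x y : V} (h : ¬ x < y) : H.w x y = 0 := by
  apply le_antisymm _ (H.w_nonneg x y)
  rw [← H.S_zero']
  apply H.mono
  intro x' y' h'
  rw [if_neg]
  rintro ⟨rfl, rfl⟩
  exact h h'

lemma Host.w_sum : ∑ x, ∑ y, H.w x y = N := by
  rw [← H.total, H.S_eq]
  simp

lemma Host.w_le (x y : V) : H.w x y ≤ N := by
  rw [← H.w_sum]
  calc H.w x y ≤ ∑ y, H.w x y := Finset.single_le_sum (f := fun y => H.w x y)
        (fun _ _ => H.w_nonneg _ _) (Finset.mem_univ y)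
    _ ≤ ∑ x, ∑ y, H.w x y := Finset.single_le_sum (f := fun x => ∑ y, H.w x y)
        (fun _ _ => Finset.sum_nonneg fun _ _ => H.w_nonneg _ _) (Finset.mem_univ x)

/-- The numbers of admissible offsets. -/
noncomputable def Host.num (Λ : ℕ) (e : V × V) : ℕ := ⌊(Λ : ℝ) * H.w e.1 e.2⌋₊ + 1

instance (Λ : ℕ) (e : V × V) : NeZero (H.num Λ e) := ⟨Nat.succ_ne_zero _⟩

lemma Host.num_le (Λ : ℕ) (e : V × V) : H.num Λ e ≤ Λ * N + 1 := by
  unfold Host.num
  apply Nat.succ_le_succ
  apply Nat.floor_le_of_le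
  push_cast
  exact mul_le_mul_of_nonneg_left (H.w_le _ _) (Nat.cast_nonneg _)

lemma Host.num_ge (Λ : ℕ) (e : V × V) : (Λ : ℝ) * H.w e.1 e.2 ≤ H.num Λ e := by
  unfold Host.num
  push_cast
  exact (Nat.lt_floor_add_one _).le

lemma Host.num_le' (Λ : ℕ) (e : V × V) : (H.num Λ e : ℝ) ≤ (Λ : ℝ) * H.w e.1 e.2 + 1 := by
  unfold Host.num
  push_cast
  have := Nat.floor_le (mul_nonneg (Nat.cast_nonneg Λ) (H.w_nonneg e.1 e.2))
  linarith

/-- The blow-up relation. -/
def Host.E (Λ : ℕ) (z z' : BlowUp V (Lab V (Λ * N + 1))) : Prop :=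
  z.1 < z'.1 ∧ (z.2 (z.1, z'.1) - z'.2 (z.1, z'.1)).val < H.num Λ (z.1, z'.1)

/-- The normalizing constant. -/
noncomputable def kap (m Q : ℕ) : ℝ := (1 / (Q : ℝ) ^ 2) ^ (m ^ 2 - 1) / Q

lemma kap_pos (m : ℕ) {Q : ℕ} (hQ : 0 < Q) : 0 < kap m Q := by
  unfold kap
  have : (0 : ℝ) < Q := by exact_mod_cast hQ
  positivity

/-- The pulled back relation. -/
def pullRel {Λ : ℕ} (g : BlowUp V (Lab V (Λ * N + 1)) → BlowUp V (Lab V (Λ * N + 1)) → Prop)
    (p : Par V (Λ * N + 1) (H.num Λ)) (x y : V) : Prop := g (x, lam p x) (y, lam p y)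

lemma avg_pullRel (Λ : ℕ) (g : BlowUp V (Lab V (Λ * N + 1)) → BlowUp V (Lab V (Λ * N + 1)) → Prop)
    (hg : ∀ z z', g z z' → H.E Λ z z') (x y : V) :
    kap (Fintype.card V) (Λ * N + 1) * ∑ c, ∑ c', rel g (x, c) (y, c') =
      H.num Λ (x, y) * avg (fun p => rel (pullRel H g p) x y) := by
  classical
  by_cases hxy : x < y
  · have h := avg_lam (Q := Λ * N + 1) (n := H.num Λ) hxy (H.num_le Λ _)
      (fun c c' => rel g (x, c) (y, c')) (by
        intro c c' hcc
        unfold rel
        rw [if_neg]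
        intro h1
        exact hcc (hg _ _ h1).2)
    have h2 : avg (fun p => rel (pullRel H g p) x y) =
        avg (fun p : Par V (Λ * N + 1) (H.num Λ) => rel g (x, lam p x) (y, lam p y)) := by
      apply avg_congr
      intro p
      unfold rel pullRel
      rfl
    rw [h2, h]
    have hne : (H.num Λ (x, y) : ℝ) ≠ 0 := by
      have := NeZero.ne (H.num Λ (x, y))
      exact_mod_cast this
    unfold kap
    field_simp
  · have h1 : ∀ c c', rel g (x, c) (y, c') = 0 := by
      intro c c'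
      unfold rel
      rw [if_neg]
      intro h1
      exact hxy (hg _ _ h1).1
    have h2 : ∀ p, rel (pullRel H g p) x y = 0 := by
      intro p
      unfold rel
      rw [if_neg]
      intro h1
      exact hxy (hg _ _ h1).1
    simp only [h1, h2, Finset.sum_const_zero, mul_zero]
    have : avg (fun _ : Par V (Λ * N + 1) (H.num Λ) => (0 : ℝ)) = 0 := by
      unfold avg; simp
    rw [this, mul_zero]

/-- The number of edges of the blow-up. -/
lemma sum_E_ge (Λ : ℕ) : (Λ : ℝ) * N ≤ kap (Fintype.card V) (Λ * N + 1) *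
    ∑ z, ∑ z', rel (H.E Λ) z z' := by
  classical
  rw [sum_blowUp, Finset.mul_sum]
  have h1 : ∀ x : V, kap (Fintype.card V) (Λ * N + 1) * ∑ c, ∑ z', rel (H.E Λ) (x, c) z' =
      ∑ y, kap (Fintype.card V) (Λ * N + 1) * ∑ c, ∑ c', rel (H.E Λ) (x, c) (y, c') := by
    intro x
    rw [← Finset.mul_sum, Finset.sum_comm (γ := V)]
    congr 1
    apply Finset.sum_congr rfl
    intro c _
    exact sum_blowUp _ _ _
  simp only [h1]
  rw [← H.w_sum, Finset.mul_sum]
  apply Finset.sum_le_sum
  intro x _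
  rw [Finset.mul_sum]
  apply Finset.sum_le_sum
  intro y _
  rw [avg_pullRel H Λ (H.E Λ) (fun _ _ h => h)]
  by_cases hxy : x < y
  · have h2 : ∀ p, rel (pullRel H (H.E Λ) p) x y = 1 := by
      intro p
      unfold rel
      rw [if_pos]
      exact ⟨hxy, lam_edge hxy (H.num_le Λ _) p⟩
    simp only [h2, avg_const, mul_one]
    exact H.num_ge Λ (x, y)
  · rw [H.w_eq_zero hxy, mul_zero]
    exact mul_nonneg (Nat.cast_nonneg _) (avg_nonneg fun p => rel_nonneg _ _ _)

/-- The number of edges of a relation all of whose pull-backs have bounded weight. -/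
lemma sum_g_le (Λ : ℕ) (g : BlowUp V (Lab V (Λ * N + 1)) → BlowUp V (Lab V (Λ * N + 1)) → Prop)
    (hg : ∀ z z', g z z' → H.E Λ z z') {s : ℝ} (hs : ∀ p, H.S (rel (pullRel H g p)) ≤ s) :
    kap (Fintype.card V) (Λ * N + 1) * ∑ z, ∑ z', rel g z z' ≤
      Λ * s + (Fintype.card V : ℝ) ^ 2 := by
  classical
  rw [sum_blowUp, Finset.mul_sum]
  have h1 : ∀ x : V, kap (Fintype.card V) (Λ * N + 1) * ∑ c, ∑ z', rel g (x, c) z' =
      ∑ y, kap (Fintype.card V) (Λ * N + 1) * ∑ c, ∑ c', rel g (x, c) (y, c') := by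
    intro x
    rw [← Finset.mul_sum, Finset.sum_comm (γ := V)]
    congr 1
    apply Finset.sum_congr rfl
    intro c _
    exact sum_blowUp _ _ _
  simp only [h1, avg_pullRel H Λ g hg]
  calc ∑ x : V, ∑ y : V, (H.num Λ (x, y) : ℝ) * avg (fun p => rel (pullRel H g p) x y)
      ≤ ∑ x : V, ∑ y : V, (Λ * (avg (fun p => rel (pullRel H g p) x y) * H.w x y) + 1) := by
        apply Finset.sum_le_sum
        intro x _
        apply Finset.sum_le_sum
        intro y _
        have h2 : 0 ≤ avg (fun p => rel (pullRel H g p) x y) := avg_nonneg fun p => rel_nonneg _ _ _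
        have h3 : avg (fun p => rel (pullRel H g p) x y) ≤ 1 := avg_le_of_le fun p => rel_le_one _ _ _
        have h4 := H.num_le' Λ (x, y)
        calc (H.num Λ (x, y) : ℝ) * avg (fun p => rel (pullRel H g p) x y)
            ≤ ((Λ : ℝ) * H.w x y + 1) * avg (fun p => rel (pullRel H g p) x y) :=
              mul_le_mul_of_nonneg_right h4 h2
          _ ≤ _ := by nlinarith
    _ = Λ * avg (fun p => H.S (rel (pullRel H g p))) + (Fintype.card V : ℝ) ^ 2 := by
        simp only [H.S_eq]
        rw [avg_sum]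
        simp only [avg_sum, avg_mul_right]
        simp only [Finset.sum_add_distrib, Finset.mul_sum, Finset.sum_const, Finset.card_univ,
          nsmul_eq_mul, mul_one, pow_two]
    _ ≤ _ := by
        gcongr
        exact avg_le_of_le hs

/-- Deweighting. -/
theorem hostSize_le_of_host {r : ℕ} (F : SimpleGraph (Fin r)) {ε s : ℝ} {Λ : ℕ} (hΛ : 0 < Λ)
    (hN : 0 < N) (hs0 : 0 ≤ s)
    (hs : ∀ g : V → V → Prop, (∀ x y, g x y → x < y) → ¬ Embeds F g → H.S (rel g) ≤ N * s)
    (hε : s + (Fintype.card V : ℝ) ^ 2 / (Λ * N) < turanDensity F + ε) :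
    hostSize F ε ≤ Fintype.card V * (Λ * N + 1) ^ (Fintype.card V ^ 2) := by
  classical
  have hΛ' : (0 : ℝ) < Λ := by exact_mod_cast hΛ
  have hN' : (0 : ℝ) < N := by exact_mod_cast hN
  have hk : 0 < kap (Fintype.card V) (Λ * N + 1) := kap_pos _ (Nat.succ_pos _)
  have hcard : Fintype.card (BlowUp V (Lab V (Λ * N + 1))) =
      Fintype.card V * (Λ * N + 1) ^ (Fintype.card V ^ 2) := by
    rw [card_blowUp, Fintype.card_fun, ZMod.card, Fintype.card_prod, pow_two (Fintype.card V)]
  rw [← hcard]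
  have hE := sum_E_ge H Λ
  refine hostSize_le_of F (c := s + (Fintype.card V : ℝ) ^ 2 / (Λ * N)) (H.E Λ)
    (fun z z' h => blowUp_lt h.1) ?_ (by positivity) hε ?_
  · by_contra hno
    push Not at hno
    have : ∀ z z', rel (H.E Λ) z z' = 0 := by
      intro z z'
      unfold rel
      rw [if_neg (hno z z')]
    simp only [this, Finset.sum_const_zero, mul_zero] at hE
    have : (0 : ℝ) < Λ * N := by positivity
    linarith
  · intro g hg hF
    have h1 : ∀ p, H.S (rel (pullRel H g p)) ≤ N * s := by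
      intro p
      apply hs
      · intro x y h
        exact (hg _ _ h).1
      · rintro ⟨f, hf1, hf2, hf3⟩
        apply hF
        refine ⟨fun i => (f i, lam p (f i)), fun i j hij => blowUp_lt (hf1 hij), ?_, ?_⟩
        · intro i j hij hadj
          exact hf2 i j hij hadj
        · intro i
          obtain ⟨y, ⟨h2, h3⟩ | ⟨h2, h3⟩⟩ := hf3 i
          · exact ⟨(y, lam p y), Or.inl ⟨blowUp_lt h2, h3⟩⟩
          · exact ⟨(y, lam p y), Or.inr ⟨blowUp_lt h2, h3⟩⟩
    have h2 := sum_g_le H Λ g hg h1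
    have h3 : (Λ : ℝ) * (N * s) + (Fintype.card V : ℝ) ^ 2 =
        (s + (Fintype.card V : ℝ) ^ 2 / (Λ * N)) * (Λ * N) := by
      field_simp
    rw [h3] at h2
    have h4 : (s + (Fintype.card V : ℝ) ^ 2 / (Λ * N)) * (Λ * N) ≤
        (s + (Fintype.card V : ℝ) ^ 2 / (Λ * N)) * (kap (Fintype.card V) (Λ * N + 1) *
          ∑ z, ∑ z', rel (H.E Λ) z z') := mul_le_mul_of_nonneg_left hE (by positivity)
    have h5 := h2.trans h4
    have h6 : kap (Fintype.card V) (Λ * N + 1) * ∑ z, ∑ z', rel g z z' ≤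
        kap (Fintype.card V) (Λ * N + 1) * ((s + (Fintype.card V : ℝ) ^ 2 / (Λ * N)) *
          ∑ z, ∑ z', rel (H.E Λ) z z') := by
      calc _ ≤ _ := h5
        _ = _ := by ring
    exact le_of_mul_le_mul_left h6 hk

end weights

end Pool.Agent.H41.Ord
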