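import Pool.Agent.H41.Ord.Main4

/-!
# The family of hosts and its constants
-/

namespace Pool.Agent.H41.Ord

open Finset

/-- the marginal constants -/
noncomputable def cst : ℕ → ℝ
  | 0 => 0
  | n + 1 => 2 + 2 * cst n

lemma cst_nonneg : ∀ n, 0 ≤ cst n
  | 0 => le_refl _
  | n + 1 => by have := cst_nonneg n; unfold cst; linarith

lemma cst_le : ∀ n, cst n + 2 ≤ 2 ^ (n + 1)
  | 0 => by unfold cst; norm_num
  | n + 1 => by
    have := cst_le n
    unfold cst
    rw [pow_succ]
    linarith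

/-- the constants in front of the deviations -/
noncomputable def Kst (q : ℕ) : ℕ → ℝ
  | 0 => 0
  | n + 1 => nextK q n (cst n)

lemma Kst_nonneg (q : ℕ) : ∀ n, 0 ≤ Kst q n
  | 0 => le_refl _
  | n + 1 => by have := cst_nonneg n; unfold Kst nextK; positivity

/-- the additive constants -/
noncomputable def Bst (q : ℕ) (η : ℝ) : ℕ → ℝ
  | 0 => 0
  | n + 1 => nextB q (Kst q n) (Bst q η n) η

lemma Bst_nonneg (q : ℕ) {η : ℝ} (hη : 0 ≤ η) : ∀ n, 0 ≤ Bst q η n
  | 0 => le_refl _
  | n + 1 => by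
    have h1 := Kst_nonneg q n
    have h2 := Bst_nonneg q hη n
    unfold Bst nextB; positivity

/-- the sizes of the hosts -/
def sz (M : ℕ) : ℕ → ℕ
  | 0 => 1
  | n + 1 => 2 * sz M n ^ M

lemma sz_le (M : ℕ) : ∀ n, sz M n ≤ 2 ^ ((M + 1) ^ n)
  | 0 => by simp [sz]
  | n + 1 => by
    have h := sz_le M n
    unfold sz
    calc 2 * sz M n ^ M ≤ 2 * (2 ^ ((M + 1) ^ n)) ^ M := by gcongr
      _ = 2 ^ ((M + 1) ^ n * M + 1) := by rw [← pow_mul, pow_succ]; ring
      _ ≤ 2 ^ ((M + 1) ^ (n + 1)) := by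
        apply Nat.pow_le_pow_right (by norm_num)
        rw [pow_succ, Nat.mul_succ]
        have : 1 ≤ (M + 1) ^ n := Nat.one_le_pow _ _ (by omega)
        omega

lemma card_next (V : Type) [Fintype V] (M : ℕ) :
    Fintype.card (Next V M) = 2 * Fintype.card V ^ M := by
  have : Fintype.card (Next V M) = Fintype.card (Bool × (Fin M → V)) := rfl
  rw [this, Fintype.card_prod, Fintype.card_bool, Fintype.card_fun, Fintype.card_fin]

/-- For every number of levels there is a host satisfying the main inequality. -/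
theorem exists_host (q : ℕ) (M : ℕ) [NeZero M] {η : ℝ} (hη : 0 ≤ η) (hM : 1 ≤ M * η ^ 2) (n : ℕ) :
    ∃ (V : Type) (_ : Fintype V) (_ : LinearOrder V) (_ : Nonempty V) (H : Host V n (cst n)),
      Fintype.card V = sz M n ∧ Claim H q (Kst q n) (Bst q η n) := by
  induction n with
  | zero =>
    refine ⟨Unit, inferInstance, inferInstance, inferInstance, Host.zero, rfl, ?_⟩
    intro Ω _ _ G A
    have h1 : target Host.zero.S G A = 0 := by
      unfold target pairS blow Host.zero
      simp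
    rw [h1]
    have h2 : (0 : ℝ) ≤ (best G A 0 : ℝ) * ∏ b, den (A b) :=
      mul_nonneg (Nat.cast_nonneg _) (Finset.prod_nonneg fun b _ => den_nonneg _)
    unfold Kst Bst
    linarith
  | succ n ih =>
    obtain ⟨V, i1, i2, i3, H, hcard, hcl⟩ := ih
    refine ⟨Next V M, inferInstance, inferInstance, inferInstance,
      H.step (cst_nonneg n) M, ?_, ?_⟩
    · rw [card_next, hcard]; rfl
    · exact claim_step (cst_nonneg n) (Kst_nonneg q n) (Bst_nonneg q hη n) hcl hη hM

/-- An upper bound for the constants `Kst q n`, `n ≤ N`. -/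
def Kmax (q N : ℕ) : ℕ := q * q * (8 * (N + 1) + 2 ^ (N + 3))

lemma Kst_le (q : ℕ) {n N : ℕ} (h : n ≤ N) : Kst q n ≤ Kmax q N := by
  cases n with
  | zero => unfold Kst; positivity
  | succ n =>
    unfold Kst nextK Kmax
    push_cast
    have h1 := cst_le n
    have h2 : (2 : ℝ) ^ (n + 1) ≤ 2 ^ N := pow_le_pow_right₀ (by norm_num) h
    have h3 : (n : ℝ) + 1 ≤ N := by exact_mod_cast h
    have h4 : (q : ℝ) ≤ q * q := by exact_mod_cast Nat.le_mul_self q
    have h5 : (0 : ℝ) ≤ q * q := by positivity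
    have h6 : (2 : ℝ) ^ (N + 3) = 8 * 2 ^ N := by rw [pow_add]; ring
    rw [h6]
    have h7 : 4 * ((n : ℝ) + 1) * (q * q) + q + q * q * (2 + 2 * cst n + (n + 1)) ≤
        q * q * (4 * N + 1 + (2 + 2 * 2 ^ N + N)) := by
      have e1 : 4 * ((n : ℝ) + 1) * (q * q) ≤ q * q * (4 * N) := by nlinarith
      have e2 : (q : ℝ) * q * (2 + 2 * cst n + (n + 1)) ≤ q * q * (2 + 2 * 2 ^ N + N) := by
        apply mul_le_mul_of_nonneg_left _ h5
        linarith
      linarith
    refine h7.trans ?_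
    apply mul_le_mul_of_nonneg_left _ h5
    have h8 : (0 : ℝ) ≤ 2 ^ N := by positivity
    have h9 : (0 : ℝ) ≤ N := by positivity
    linarith

lemma card_pat (q : ℕ) : Fintype.card (Fin q → Fin q → Bool) = 2 ^ (q * q) := by
  simp [pow_mul]

lemma Bst_le (q : ℕ) {η : ℝ} (hη : 0 ≤ η) (N : ℕ) {n : ℕ} (h : n ≤ N) :
    Bst q η n ≤ n * (2 ^ (q * q)) ^ n * (Kmax q N * (q * η)) := by
  induction n with
  | zero => unfold Bst; simp
  | succ n ih =>
    have h1 := ih (by omega)
    have h2 := Kst_le q (n := n) (N := N) (by omega)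
    have hX : (0 : ℝ) ≤ Kmax q N * (q * η) := by positivity
    unfold Bst nextB
    rw [card_pat]
    push_cast
    have hC : (1 : ℝ) ≤ 2 ^ (q * q) := one_le_pow₀ (by norm_num)
    have hCn : (1 : ℝ) ≤ (2 ^ (q * q)) ^ n := one_le_pow₀ hC
    calc (2 : ℝ) ^ (q * q) * (Bst q η n + Kst q n * (q * η))
        ≤ 2 ^ (q * q) * (n * (2 ^ (q * q)) ^ n * (Kmax q N * (q * η)) +
          (2 ^ (q * q)) ^ n * (Kmax q N * (q * η))) := by
          refine mul_le_mul_of_nonneg_left (add_le_add h1 ?_) (by positivity)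
          calc Kst q n * (q * η) ≤ Kmax q N * (q * η) :=
                mul_le_mul_of_nonneg_right h2 (by positivity)
            _ ≤ (2 ^ (q * q)) ^ n * (Kmax q N * (q * η)) := le_mul_of_one_le_left hX hCn
      _ = (n + 1) * (2 ^ (q * q)) ^ (n + 1) * (Kmax q N * (q * η)) := by rw [pow_succ]; ring

/-- The branching parameter. -/
def Mpar (q N : ℕ) : ℕ := (N * (2 ^ (q * q)) ^ N * (Kmax q N * q)) ^ 2

/-- The hosts with good constants: for every relation there is a configuration of total value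
at least `q (q - 1) S - 1`. -/
theorem exists_host_final {q N : ℕ} (hq : 0 < q) (hN : 0 < N) :
    ∃ (V : Type) (_ : Fintype V) (_ : LinearOrder V) (_ : Nonempty V) (H : Host V N (cst N)),
      Fintype.card V = sz (Mpar q N) N ∧ ∀ G : V → V → Prop,
        ∃ ℓ ≤ N, ∃ (x : ℕ → Fin q → V) (D : ℕ → Fin q → Fin q → Bool),
          (∀ j j', j < j' → j' ≤ ℓ → ∀ a b, x j a < x j' b) ∧
          (∀ j j', j < j' → j' ≤ ℓ → ∀ a b, (G (x j a) (x j' b) ↔ D j a b = true)) ∧
          q * (q - 1) * H.S (rel G) - 1 ≤ ((∑ j ∈ range ℓ, offOnes (D j) : ℕ) : ℝ) := by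
  classical
  set Y : ℕ := N * (2 ^ (q * q)) ^ N * (Kmax q N * q) with hY
  have hKpos : 0 < Kmax q N := by unfold Kmax; positivity
  have hYpos : 0 < Y := by rw [hY]; positivity
  have hM0 : NeZero (Mpar q N) := ⟨by unfold Mpar; positivity⟩
  have hY' : (0 : ℝ) < Y := by exact_mod_cast hYpos
  have hη : (0 : ℝ) ≤ 1 / Y := by positivity
  have hM : 1 ≤ (Mpar q N : ℝ) * (1 / (Y : ℝ)) ^ 2 := by
    unfold Mpar
    rw [← hY]
    push_cast
    rw [← mul_pow, mul_one_div_cancel hY'.ne', one_pow]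
  obtain ⟨V, i1, i2, i3, H, hcard, hcl⟩ := exists_host q (Mpar q N) hη hM N
  refine ⟨V, i1, i2, i3, H, hcard, ?_⟩
  intro G
  have hB : Bst q (1 / Y) N ≤ 1 := by
    refine (Bst_le q hη N le_rfl).trans ?_
    have : (N : ℝ) * (2 ^ (q * q)) ^ N * (Kmax q N * (q * (1 / (Y : ℝ)))) = Y * (1 / Y) := by
      rw [hY]; push_cast; ring
    rw [this, mul_one_div_cancel hY'.ne']
  -- the relation on `V × Unit`
  let G' : V × Unit → V × Unit → Prop := fun z z' => G z.1 z'.1
  have h := hcl Unit G' (fun _ => Set.univ)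
  have hden : den (Set.univ : Set (V × Unit)) = 1 :=
    (avg_congr fun z => ind_of_mem (Set.mem_univ z)).trans (avg_const 1)
  have hloc : ∀ h : V, loc (Set.univ : Set (V × Unit)) h = 1 := by
    intro h
    unfold loc
    have : ∀ z : V × Unit, ind (Set.univ : Set (V × Unit)) z = 1 := fun z => ind_of_mem trivial
    simp only [this, avg_const]
  have hdev : dev (Set.univ : Set (V × Unit)) = 0 := by
    unfold dev
    rw [hden]
    simp only [hloc, sub_self, abs_zero, avg_const]
  have hpair : pairS H.S G' Set.univ Set.univ = H.S (rel G) := by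
    unfold pairS blow
    congr 1
    ext x y
    have : ∀ z : V × Unit, ind (Set.univ : Set (V × Unit)) z = 1 := fun z => ind_of_mem trivial
    simp only [this, one_mul]
    have h2 : ∀ (ω ω' : Unit), rel G' (x, ω) (y, ω') = rel G x y := fun ω ω' => rfl
    simp only [h2, avg_const]
  have htarget : target H.S G' (fun _ : Fin q => Set.univ) = q * (q - 1) * H.S (rel G) := by
    unfold target
    simp only [hpair]
    simp only [hden, Finset.prod_const_one, mul_one, Finset.sum_const, nsmul_eq_mul, Finset.card_erase_of_mem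
      (Finset.mem_univ _), Finset.card_univ, Fintype.card_fin]
    rw [Nat.cast_sub (by omega)]
    push_cast
    ring
  rw [htarget] at h
  simp only [hdev, hden, Finset.sum_const_zero, mul_zero, sub_zero, Finset.prod_const_one,
    mul_one] at h
  obtain ⟨ℓ, hℓ, x, D, hc, hv⟩ := ach_best (G := G') (A := fun _ : Fin q => Set.univ) N
    (fun a => Set.univ_nonempty)
  refine ⟨ℓ, hℓ, fun j a => (x j a).1, D, hc.lt, hc.pat, ?_⟩
  rw [← hv]
  linarith

end Pool.Agent.H41.Ord
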