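import Mathlib

/-!
# Functions bounded by a tower of bounded height
-/

namespace Pool.Agent.H41.Ord

/-- Towers of twos. -/
def tw : ℕ → ℕ → ℕ
  | 0, x => x
  | k + 1, x => 2 ^ tw k x

lemma tw_le_succ (k x : ℕ) : tw k x ≤ tw (k + 1) x := Nat.lt_two_pow_self.le

lemma tw_mono {k l : ℕ} (h : k ≤ l) (x : ℕ) : tw k x ≤ tw l x := by
  induction h with
  | refl => exact le_rfl
  | step _ ih => exact ih.trans (tw_le_succ _ x)

lemma self_le_tw (k x : ℕ) : k + x ≤ tw k x := by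
  induction k with
  | zero => simp [tw]
  | succ k ih =>
    have h1 : tw k x < 2 ^ tw k x := Nat.lt_two_pow_self
    change k + 1 + x ≤ 2 ^ tw k x
    omega

/-- The function `f` is bounded by a tower of bounded height. -/
def Bd (f : ℕ → ℕ) : Prop := ∃ k, ∀ n, 1 ≤ n → f n ≤ tw k (n + 1)

lemma Bd.const (c : ℕ) : Bd (fun _ => c) := ⟨c, fun n _ => by
  have h := self_le_tw c (n + 1)
  change c ≤ tw c (n + 1)
  omega⟩

lemma Bd.id : Bd (fun n => n) := ⟨0, fun n _ => by simp [tw]⟩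

lemma Bd.mono {f g : ℕ → ℕ} (hg : Bd g) (h : ∀ n, 1 ≤ n → f n ≤ g n) : Bd f := by
  obtain ⟨k, hk⟩ := hg
  exact ⟨k, fun n hn => (h n hn).trans (hk n hn)⟩

lemma Bd.pow {f g : ℕ → ℕ} (hf : Bd f) (hg : Bd g) : Bd (fun n => f n ^ g n) := by
  obtain ⟨k, hk⟩ := hf
  obtain ⟨l, hl⟩ := hg
  refine ⟨max k l + 3, fun n hn => ?_⟩
  set t := tw (max k l) (n + 1) with ht
  have h1 : f n ≤ t := (hk n hn).trans (tw_mono (le_max_left k l) _)
  have h2 : g n ≤ t := (hl n hn).trans (tw_mono (le_max_right k l) _)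
  have ht1 : 1 ≤ t := by
    have := self_le_tw (max k l) (n + 1)
    omega
  have h3 : t < 2 ^ t := Nat.lt_two_pow_self
  have h4 : 2 * t ≤ 2 ^ t := by
    obtain ⟨s, hs⟩ : ∃ s, t = s + 1 := ⟨t - 1, by omega⟩
    rw [hs, pow_succ]
    have : s < 2 ^ s := Nat.lt_two_pow_self
    omega
  calc f n ^ g n ≤ t ^ g n := Nat.pow_le_pow_left h1 _
    _ ≤ t ^ t := Nat.pow_le_pow_right ht1 h2
    _ ≤ (2 ^ t) ^ t := Nat.pow_le_pow_left h3.le _
    _ = 2 ^ (t * t) := by rw [pow_mul]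
    _ ≤ 2 ^ (2 ^ t * 2 ^ t) := Nat.pow_le_pow_right (by norm_num) (Nat.mul_le_mul h3.le h3.le)
    _ = 2 ^ (2 ^ (2 * t)) := by rw [two_mul t, pow_add]
    _ ≤ 2 ^ (2 ^ (2 ^ t)) :=
        Nat.pow_le_pow_right (by norm_num) (Nat.pow_le_pow_right (by norm_num) h4)
    _ = tw (max k l + 3) (n + 1) := rfl

lemma Bd.mul {f g : ℕ → ℕ} (hf : Bd f) (hg : Bd g) : Bd (fun n => f n * g n) := by
  obtain ⟨k, hk⟩ := hf
  obtain ⟨l, hl⟩ := hg
  refine ⟨max k l + 2, fun n hn => ?_⟩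
  set t := tw (max k l) (n + 1) with ht
  have h1 : f n ≤ t := (hk n hn).trans (tw_mono (le_max_left k l) _)
  have h2 : g n ≤ t := (hl n hn).trans (tw_mono (le_max_right k l) _)
  have ht1 : 1 ≤ t := by
    have := self_le_tw (max k l) (n + 1)
    omega
  have h3 : t < 2 ^ t := Nat.lt_two_pow_self
  have h4 : 2 * t ≤ 2 ^ t := by
    obtain ⟨s, hs⟩ : ∃ s, t = s + 1 := ⟨t - 1, by omega⟩
    rw [hs, pow_succ]
    have : s < 2 ^ s := Nat.lt_two_pow_self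
    omega
  calc f n * g n ≤ t * t := Nat.mul_le_mul h1 h2
    _ ≤ 2 ^ t * 2 ^ t := Nat.mul_le_mul h3.le h3.le
    _ = 2 ^ (2 * t) := by rw [two_mul t, pow_add]
    _ ≤ 2 ^ (2 ^ t) := Nat.pow_le_pow_right (by norm_num) h4
    _ = tw (max k l + 2) (n + 1) := rfl

lemma Bd.succ {f : ℕ → ℕ} (hf : Bd f) : Bd (fun n => f n + 1) := by
  obtain ⟨k, hk⟩ := hf
  refine ⟨k + 1, fun n hn => ?_⟩
  have h1 := hk n hn
  have h2 : tw k (n + 1) < 2 ^ tw k (n + 1) := Nat.lt_two_pow_self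
  change f n + 1 ≤ 2 ^ tw k (n + 1)
  omega

lemma Bd.add {f g : ℕ → ℕ} (hf : Bd f) (hg : Bd g) : Bd (fun n => f n + g n) := by
  refine Bd.mono (hf.succ.mul hg.succ) ?_
  intro n _
  nlinarith

lemma exp_iter_mono (k : ℕ) : Monotone (Real.exp^[k]) :=
  Real.exp_monotone.iterate k

lemma tw_le_exp_iter (k x : ℕ) : (tw k x : ℝ) ≤ Real.exp^[k] x := by
  induction k with
  | zero => simp [tw]
  | succ k ih =>
    rw [Function.iterate_succ_apply']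
    change ((2 ^ tw k x : ℕ) : ℝ) ≤ _
    push_cast
    have h1 : (2 : ℝ) ≤ Real.exp 1 := by
      have := Real.add_one_le_exp (1 : ℝ)
      linarith
    calc (2 : ℝ) ^ tw k x ≤ Real.exp 1 ^ tw k x := by gcongr
      _ = Real.exp (tw k x) := by rw [← Real.exp_nat_mul, mul_one]
      _ ≤ Real.exp (Real.exp^[k] x) := Real.exp_le_exp.2 ih

/-- Bounded towers in terms of the iterated exponential. -/
lemma Bd.exp_iter {f : ℕ → ℕ} (hf : Bd f) :
    ∃ k : ℕ, 1 ≤ k ∧ ∀ x : ℝ, 1 ≤ x → (f ⌈x⌉₊ : ℝ) ≤ Real.exp^[k] x := by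
  obtain ⟨k, hk⟩ := hf
  refine ⟨k + 2, by omega, fun x hx => ?_⟩
  have h1 : 1 ≤ ⌈x⌉₊ := Nat.one_le_ceil_iff.2 (by linarith)
  have h2 : (f ⌈x⌉₊ : ℝ) ≤ tw k (⌈x⌉₊ + 1) := by exact_mod_cast hk _ h1
  have h3 := tw_le_exp_iter k (⌈x⌉₊ + 1)
  have h4 : ((⌈x⌉₊ + 1 : ℕ) : ℝ) ≤ Real.exp^[2] x := by
    push_cast
    have h5 := Nat.ceil_lt_add_one (by linarith : (0 : ℝ) ≤ x)
    have h6 := Real.add_one_le_exp x
    have h7 := Real.add_one_le_exp (Real.exp x)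
    change (⌈x⌉₊ : ℝ) + 1 ≤ Real.exp (Real.exp x)
    linarith
  rw [Function.iterate_add_apply]
  exact h2.trans (h3.trans (exp_iter_mono k h4))

end Pool.Agent.H41.Ord
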