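import Pool.Agent.H41.Ord.Deweight2
import Pool.Agent.H41.Ord.Tower

/-!
# The bound for `N(F,ε)`
-/

set_option linter.unusedSectionVars false

namespace Pool.Agent.H41.Ord

open Finset

/-- The number of blocks. -/
def parN (r X : ℕ) : ℕ := 12 * (r + 1) * 2 ^ ((24 * X) * (24 * X)) * X

/-- The bound for the size of the weighted host. -/
def parm (r X : ℕ) : ℕ := 2 ^ ((Mpar (24 * X) (parN r X) + 1) ^ parN r X)

/-- The bound for `N(F,ε)`. -/
def parF (r X : ℕ) : ℕ :=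
  parm r X * ((parm r X ^ 2 * (3 * X)) * parN r X + 1) ^ (parm r X ^ 2)

theorem hostSize_le_parF {r : ℕ} (F : SimpleGraph (Fin r)) {ε : ℝ} (hε : 0 < ε) (hε1 : ε < 1)
    {X : ℕ} (hX : 1 / ε ≤ X) : hostSize F ε ≤ parF r X := by
  classical
  have hXpos : 0 < X := by
    have h1 : (0 : ℝ) < X := lt_of_lt_of_le (by positivity) hX
    exact_mod_cast h1
  have hXr : (0 : ℝ) < X := by exact_mod_cast hXpos
  set q := 24 * X with hq
  set N := parN r X with hN
  set δ : ℝ := ε / 3 with hδ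
  have hδ0 : 0 < δ := by positivity
  have hδ1 : δ < 1 := by rw [hδ]; linarith
  have h1δ : 1 / δ ≤ 3 * X := by
    have : 1 / δ = 3 * (1 / ε) := by rw [hδ]; field_simp
    rw [this]
    linarith
  have hqpos : 0 < q := by omega
  have hNpos : 0 < N := by rw [hN]; unfold parN; positivity
  have hq8 : 8 / δ ≤ q := by
    calc 8 / δ = 8 * (1 / δ) := by ring
      _ ≤ 8 * (3 * X) := by linarith
      _ = (q : ℝ) := by rw [hq]; push_cast; ring
  have hN4 : 4 * ((r : ℝ) + 1) * 2 ^ (q * q) / δ ≤ N := by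
    calc 4 * ((r : ℝ) + 1) * 2 ^ (q * q) / δ = 4 * ((r : ℝ) + 1) * 2 ^ (q * q) * (1 / δ) := by ring
      _ ≤ 4 * ((r : ℝ) + 1) * 2 ^ (q * q) * (3 * X) :=
          mul_le_mul_of_nonneg_left h1δ (by positivity)
      _ = (N : ℝ) := by rw [hN]; unfold parN; rw [hq]; push_cast; ring
  obtain ⟨V, i1, i2, i3, H, hcard, hH⟩ := exists_host_final hqpos hNpos
  have hm1 : 0 < Fintype.card V := Fintype.card_pos
  have hmle : Fintype.card V ≤ parm r X := by
    rw [hcard]
    exact sz_le _ _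
  set Λ := Fintype.card V ^ 2 * (3 * X) with hΛ
  have hΛpos : 0 < Λ := by positivity
  have key := hostSize_le_of_host H F (ε := ε) (s := turanDensity F + δ) hΛpos hNpos
    (by have := turanDensity_nonneg F; linarith)
    (by
      intro g _ hg
      by_contra hcon
      push Not at hcon
      apply hg
      obtain ⟨ℓ, hℓ, x, D, hx, hD, hval⟩ := hH g
      exact embed_of_dense hδ0 hδ1 hq8 hN4 hℓ hx hD hcon.le hval)
    (by
      have h1 : (Fintype.card V : ℝ) ^ 2 / (Λ * N) ≤ δ := by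
        have hm1' : (0 : ℝ) < Fintype.card V := by exact_mod_cast hm1
        have hN1 : (1 : ℝ) ≤ N := by exact_mod_cast hNpos
        rw [div_le_iff₀ (by positivity)]
        have h2 : 1 ≤ δ * (3 * X) := by
          rw [div_le_iff₀ hδ0] at h1δ
          linarith
        calc (Fintype.card V : ℝ) ^ 2 = (Fintype.card V : ℝ) ^ 2 * 1 := by ring
          _ ≤ (Fintype.card V : ℝ) ^ 2 * (δ * (3 * X) * N) := by
              apply mul_le_mul_of_nonneg_left _ (by positivity)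
              nlinarith
          _ = δ * (Λ * N) := by rw [hΛ]; push_cast; ring
      rw [hδ] at h1 ⊢
      linarith)
  refine key.trans ?_
  have h1 : Λ * N + 1 ≤ (parm r X ^ 2 * (3 * X)) * N + 1 := by
    rw [hΛ]
    gcongr
  calc Fintype.card V * (Λ * N + 1) ^ (Fintype.card V ^ 2)
      ≤ parm r X * ((parm r X ^ 2 * (3 * X)) * N + 1) ^ (Fintype.card V ^ 2) :=
        Nat.mul_le_mul hmle (Nat.pow_le_pow_left h1 _)
    _ ≤ parm r X * ((parm r X ^ 2 * (3 * X)) * N + 1) ^ (parm r X ^ 2) := by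
        apply Nat.mul_le_mul_left
        apply Nat.pow_le_pow_right (Nat.succ_pos _)
        exact Nat.pow_le_pow_left hmle 2

lemma bd_parN (r : ℕ) : Bd (parN r) := by
  have h24 : Bd (fun X => 24 * X) := (Bd.const 24).mul Bd.id
  exact ((Bd.const (12 * (r + 1))).mul ((Bd.const 2).pow (h24.mul h24))).mul Bd.id

lemma bd_Kmax {q N : ℕ → ℕ} (hq : Bd q) (hN : Bd N) : Bd (fun X => Kmax (q X) (N X)) :=
  (hq.mul hq).mul (((Bd.const 8).mul hN.succ).add ((Bd.const 2).pow (hN.add (Bd.const 3))))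

lemma bd_Mpar {q N : ℕ → ℕ} (hq : Bd q) (hN : Bd N) : Bd (fun X => Mpar (q X) (N X)) :=
  ((hN.mul (((Bd.const 2).pow (hq.mul hq)).pow hN)).mul ((bd_Kmax hq hN).mul hq)).pow (Bd.const 2)

lemma bd_parm (r : ℕ) : Bd (parm r) := by
  have h24 : Bd (fun X => 24 * X) := (Bd.const 24).mul Bd.id
  exact (Bd.const 2).pow ((bd_Mpar h24 (bd_parN r)).succ.pow (bd_parN r))

lemma bd_parF (r : ℕ) : Bd (parF r) := by
  have h3 : Bd (fun X => 3 * X) := (Bd.const 3).mul Bd.id
  have hm := bd_parm r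
  have hm2 := hm.pow (Bd.const 2)
  exact hm.mul ((((hm2.mul h3).mul (bd_parN r)).succ).pow hm2)

/-- The tower bound. -/
theorem exists_tower_bound {r : ℕ} (F : SimpleGraph (Fin r)) :
    ∃ k : ℕ, 1 ≤ k ∧ ∀ ε : ℝ, 0 < ε → ε < 1 → (hostSize F ε : ℝ) ≤ Real.exp^[k] (1 / ε) := by
  obtain ⟨k, hk1, hk⟩ := (bd_parF r).exp_iter
  refine ⟨k, hk1, fun ε hε hε1 => ?_⟩
  have h1 : 1 ≤ 1 / ε := by rw [le_div_iff₀ hε]; linarith
  refine le_trans ?_ (hk (1 / ε) h1)
  exact_mod_cast hostSize_le_parF F hε hε1 (Nat.le_ceil _)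

/-- The set defining `N(F,ε)` is not empty. -/
theorem hostSize_set_nonempty {r : ℕ} (F : SimpleGraph (Fin r)) {ε : ℝ} (hε : 0 < ε) :
    {n : ℕ | ∃ G : SimpleGraph (Fin n), 1 ≤ G.edgeSet.ncard ∧
      relTuran F G < turanDensity F + ε}.Nonempty := by
  have hne : {x : ℝ | ∃ (n : ℕ) (G : SimpleGraph (Fin n)), 1 ≤ G.edgeSet.ncard ∧
      x = relTuran F G}.Nonempty := by
    obtain ⟨n, G, hG⟩ := exists_graph_edge
    exact ⟨_, n, G, hG, rfl⟩
  obtain ⟨x, ⟨n, G, hG, rfl⟩, hx⟩ := exists_lt_of_csInf_lt hne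
    (show sInf _ < turanDensity F + ε by
      have : sInf {x : ℝ | ∃ (n : ℕ) (G : SimpleGraph (Fin n)), 1 ≤ G.edgeSet.ncard ∧
        x = relTuran F G} = turanDensity F := rfl
      rw [this]; linarith)
  exact ⟨n, G, hG, hx⟩

end Pool.Agent.H41.Ord
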