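import Pool.Agent.H41.Ord.Avg

/-!
# Weighted multi-level hosts
-/

namespace Pool.Agent.H41.Ord

open Finset

/-- A weighted ordered host of total weight `n`: a positive linear functional on functions of
pairs, depending only on the pairs `x < y`, with bounded marginals. -/
structure Host (V : Type) [Fintype V] [LinearOrder V] (n : ℕ) (c : ℝ) where
  /-- the functional -/
  S : (V → V → ℝ) →ₗ[ℝ] ℝ
  mono : ∀ g g' : V → V → ℝ, (∀ x y, x < y → g x y ≤ g' x y) → S g ≤ S g'
  total : S (fun _ _ => 1) = n
  margL : ∀ g : V → ℝ, (∀ x, 0 ≤ g x) → S (fun x _ => g x) ≤ c * avg g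
  margR : ∀ g : V → ℝ, (∀ x, 0 ≤ g x) → S (fun _ y => g y) ≤ c * avg g

/-- The vertex set of the next host. -/
def Next (V : Type) (M : ℕ) : Type := Bool × (Fin M → V)

namespace Next

variable {V : Type} {M : ℕ}

instance [Fintype V] : Fintype (Next V M) := inferInstanceAs (Fintype (Bool × (Fin M → V)))

instance [Nonempty V] : Nonempty (Next V M) := inferInstanceAs (Nonempty (Bool × (Fin M → V)))

noncomputable instance [LinearOrder V] : LinearOrder (Next V M) :=
  LinearOrder.lift' (fun x : Bool × (Fin M → V) => (toLex (x.1, toLex x.2) : Bool ×ₗ Lex (Fin M → V)))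
    (by
      intro x y h
      have := toLex.injective h
      simp only [Prod.mk.injEq] at this
      exact Prod.ext this.1 (toLex.injective this.2))

/-- the vertex `(b, u)` -/
def mk (b : Bool) (u : Fin M → V) : Next V M := (b, u)

lemma lt_top [LinearOrder V] (u u' : Fin M → V) : (mk false u : Next V M) < mk true u' := by
  change (toLex (false, toLex u) : Bool ×ₗ Lex (Fin M → V)) < toLex (true, toLex u')
  rw [Prod.Lex.toLex_lt_toLex]
  exact Or.inl Bool.false_lt_true

lemma lt_glue [LinearOrder V] (t : Fin M) (p s s' : Fin M → V) {h h' : V} (hh : h < h') :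
    (mk true (glue t p h s) : Next V M) < mk true (glue t p h' s') := by
  change (toLex (true, toLex (glue t p h s)) : Bool ×ₗ Lex (Fin M → V)) <
    toLex (true, toLex (glue t p h' s'))
  rw [Prod.Lex.toLex_lt_toLex]
  refine Or.inr ⟨rfl, ?_⟩
  refine ⟨t, ?_, ?_⟩
  · intro j hj
    change glue t p h s j = glue t p h' s' j
    rw [glue_lt hj, glue_lt hj]
  · change glue t p h s t < glue t p h' s' t
    rw [glue_self, glue_self]
    exact hh

lemma avg_next [Fintype V] (f : Next V M → ℝ) :
    avg f = (avg (fun u => f (mk false u)) + avg (fun u => f (mk true u))) / 2 := by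
  have : avg f = avg (fun x : Bool × (Fin M → V) => f x) := rfl
  rw [this, avg_prod, avg_bool]
  rfl

end Next

section step

variable {V : Type} [Fintype V] [LinearOrder V] [Nonempty V]

/-- The functional of the next host. -/
noncomputable def stepS (M : ℕ) (S : (V → V → ℝ) →ₗ[ℝ] ℝ) :
    (Next V M → Next V M → ℝ) →ₗ[ℝ] ℝ where
  toFun g := avg (fun u : Fin M → V => avg (fun u' : Fin M → V =>
      g (Next.mk false u) (Next.mk true u')))
    + avg (fun t : Fin M => avg (fun p : Fin M → V => S (fun h h' =>
        avg (fun s : Fin M → V => avg (fun s' : Fin M → V =>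
          g (Next.mk true (glue t p h s)) (Next.mk true (glue t p h' s')))))))
  map_add' g g' := by
    simp only [Pi.add_apply, avg_add]
    have : ∀ (t : Fin M) (p : Fin M → V), S (fun h h' =>
        avg (fun s : Fin M → V => avg (fun s' : Fin M → V =>
          g (Next.mk true (glue t p h s)) (Next.mk true (glue t p h' s')))) +
        avg (fun s : Fin M → V => avg (fun s' : Fin M → V =>
          g' (Next.mk true (glue t p h s)) (Next.mk true (glue t p h' s'))))) =
        S (fun h h' => avg (fun s : Fin M → V => avg (fun s' : Fin M → V =>
          g (Next.mk true (glue t p h s)) (Next.mk true (glue t p h' s'))))) +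
        S (fun h h' => avg (fun s : Fin M → V => avg (fun s' : Fin M → V =>
          g' (Next.mk true (glue t p h s)) (Next.mk true (glue t p h' s'))))) := by
      intro t p
      rw [← map_add]
      rfl
    simp only [this, avg_add]
    ring
  map_smul' r g := by
    simp only [Pi.smul_apply, smul_eq_mul, avg_mul_left, RingHom.id_apply]
    have : ∀ (t : Fin M) (p : Fin M → V), S (fun h h' =>
        r * avg (fun s : Fin M → V => avg (fun s' : Fin M → V =>
          g (Next.mk true (glue t p h s)) (Next.mk true (glue t p h' s'))))) =
        r * S (fun h h' => avg (fun s : Fin M → V => avg (fun s' : Fin M → V =>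
          g (Next.mk true (glue t p h s)) (Next.mk true (glue t p h' s'))))) := by
      intro t p
      rw [← smul_eq_mul, ← map_smul]
      rfl
    simp only [this, avg_mul_left]
    ring

/-- The next host. -/
noncomputable def Host.step {n : ℕ} {c : ℝ} (H : Host V n c) (hc : 0 ≤ c) (M : ℕ) [NeZero M] :
    Host (Next V M) (n + 1) (2 + 2 * c) where
  S := stepS M H.S
  mono g g' hg := by
    change avg _ + avg _ ≤ avg _ + avg _
    apply add_le_add
    · exact avg_mono fun u => avg_mono fun u' => hg _ _ (Next.lt_top u u')
    · exact avg_mono fun t => avg_mono fun p => H.mono _ _ fun h h' hh =>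
        avg_mono fun s => avg_mono fun s' => hg _ _ (Next.lt_glue t p s s' hh)
  total := by
    have : Nonempty (Fin M) := ⟨0⟩
    change avg _ + avg _ = _
    simp only [avg_const, H.total]
    push_cast
    ring
  margL g hg := by
    have : Nonempty (Fin M) := ⟨0⟩
    change avg _ + avg _ ≤ _
    simp only [avg_const]
    have h1 : avg (fun t : Fin M => avg (fun p : Fin M → V => H.S (fun h _ =>
        avg (fun s : Fin M → V => g (Next.mk true (glue t p h s)))))) ≤
        c * avg (fun u : Fin M → V => g (Next.mk true u)) := by
      apply avg_le_of_le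
      intro t
      calc avg (fun p : Fin M → V => H.S (fun h _ =>
            avg (fun s : Fin M → V => g (Next.mk true (glue t p h s)))))
          ≤ avg (fun p : Fin M → V => c * avg (fun h : V =>
            avg (fun s : Fin M → V => g (Next.mk true (glue t p h s))))) :=
            avg_mono fun p => H.margL _ fun h => avg_nonneg fun s => hg _
        _ = c * avg (fun u : Fin M → V => g (Next.mk true u)) := by
            rw [avg_mul_left, avg_glue t (fun u => g (Next.mk true u))]
    rw [Next.avg_next]
    have h2 : 0 ≤ avg (fun u : Fin M → V => g (Next.mk true u)) := avg_nonneg fun u => hg _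
    have h3 : 0 ≤ avg (fun u : Fin M → V => g (Next.mk false u)) := avg_nonneg fun u => hg _
    have h4 : 0 ≤ c * avg (fun u : Fin M → V => g (Next.mk false u)) := mul_nonneg hc h3
    nlinarith
  margR g hg := by
    have : Nonempty (Fin M) := ⟨0⟩
    change avg _ + avg _ ≤ _
    simp only [avg_const]
    have h1 : avg (fun t : Fin M => avg (fun p : Fin M → V => H.S (fun _ h' =>
        avg (fun s : Fin M → V => g (Next.mk true (glue t p h' s)))))) ≤
        c * avg (fun u : Fin M → V => g (Next.mk true u)) := by
      apply avg_le_of_le
      intro t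
      calc avg (fun p : Fin M → V => H.S (fun _ h' =>
            avg (fun s : Fin M → V => g (Next.mk true (glue t p h' s)))))
          ≤ avg (fun p : Fin M → V => c * avg (fun h : V =>
            avg (fun s : Fin M → V => g (Next.mk true (glue t p h s))))) :=
            avg_mono fun p => H.margR _ fun h => avg_nonneg fun s => hg _
        _ = c * avg (fun u : Fin M → V => g (Next.mk true u)) := by
            rw [avg_mul_left, avg_glue t (fun u => g (Next.mk true u))]
    rw [Next.avg_next]
    have h2 : 0 ≤ avg (fun u : Fin M → V => g (Next.mk true u)) := avg_nonneg fun u => hg _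
    have h3 : 0 ≤ avg (fun u : Fin M → V => g (Next.mk false u)) := avg_nonneg fun u => hg _
    have h4 : 0 ≤ c * avg (fun u : Fin M → V => g (Next.mk false u)) := mul_nonneg hc h3
    nlinarith

/-- The trivial host. -/
noncomputable def Host.zero : Host Unit 0 0 where
  S := 0
  mono _ _ _ := le_refl _
  total := by simp
  margL _ _ := by simp
  margR _ _ := by simp

end step

end Pool.Agent.H41.Ord
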