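import Pool.Agent.H41.Ord.Defs
import Pool.Agent.H41.Ord.Family

/-!
# Lower bounds for the relative Turan density from random labellings
-/

set_option linter.unusedSectionVars false

namespace Pool.Agent.H41.Ord

open Finset

section edges

variable {n : ℕ}

open Classical in
/-- The edges of a graph on `Fin n` as increasing pairs. -/
lemma edgeSet_ncard_eq (G : SimpleGraph (Fin n)) :
    G.edgeSet.ncard = (univ.filter (fun p : Fin n × Fin n => p.1 < p.2 ∧ G.Adj p.1 p.2)).card := by
  have himg : G.edgeSet = (fun p : Fin n × Fin n => s(p.1, p.2)) ''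
      (↑(univ.filter (fun p : Fin n × Fin n => p.1 < p.2 ∧ G.Adj p.1 p.2)) : Set _) := by
    ext e
    induction e using Sym2.ind with
    | _ x y =>
      simp only [SimpleGraph.mem_edgeSet, Set.mem_image, Finset.coe_filter, Finset.mem_univ,
        true_and, Set.mem_ofPred_eq, Prod.exists, Sym2.eq_iff]
      constructor
      · intro h
        rcases lt_or_gt_of_ne h.ne with hlt | hlt
        · exact ⟨x, y, ⟨hlt, h⟩, Or.inl ⟨rfl, rfl⟩⟩
        · exact ⟨y, x, ⟨hlt, h.symm⟩, Or.inr ⟨rfl, rfl⟩⟩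
      · rintro ⟨a, b, ⟨_, hab⟩, ⟨rfl, rfl⟩ | ⟨rfl, rfl⟩⟩
        · exact hab
        · exact hab.symm
  rw [himg, Set.InjOn.ncard_image, Set.ncard_coe_finset]
  rintro ⟨a, b⟩ hab ⟨c, d⟩ hcd h
  simp only [Finset.coe_filter, Finset.mem_univ, true_and, Set.mem_ofPred_eq] at hab hcd
  rcases Sym2.eq_iff.1 h with ⟨h1, h2⟩ | ⟨h1, h2⟩
  · simp only at h1 h2
    rw [h1, h2]
  · simp only at h1 h2
    rw [h1, h2] at hab
    exact absurd hab.1 (not_lt.2 hcd.1.le)

open Classical in
lemma subgraph_ncard_eq {G : SimpleGraph (Fin n)} (G' : G.Subgraph) :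
    G'.edgeSet.ncard =
      (univ.filter (fun p : Fin n × Fin n => p.1 < p.2 ∧ G'.Adj p.1 p.2)).card := by
  have h : G'.edgeSet = G'.spanningCoe.edgeSet := by
    ext e
    induction e using Sym2.ind with
    | _ => simp
  rw [h, edgeSet_ncard_eq]
  simp

/-- The number of edges as a sum of zero-one values. -/
lemma subgraph_ncard_eq_sum {G : SimpleGraph (Fin n)} (G' : G.Subgraph) :
    (G'.edgeSet.ncard : ℝ) = ∑ x, ∑ y, if x < y then rel G'.Adj x y else 0 := by
  classical
  rw [subgraph_ncard_eq, Finset.card_filter, ← Finset.univ_product_univ, Finset.sum_product]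
  push_cast
  apply Finset.sum_congr rfl fun x _ => Finset.sum_congr rfl fun y _ => ?_
  unfold rel
  by_cases h1 : x < y <;> by_cases h2 : G'.Adj x y <;> simp [h1, h2]

lemma edgeSet_ncard_eq_sum (G : SimpleGraph (Fin n)) :
    (G.edgeSet.ncard : ℝ) = ∑ x, ∑ y, if x < y then rel G.Adj x y else 0 := by
  classical
  rw [edgeSet_ncard_eq, Finset.card_filter, ← Finset.univ_product_univ, Finset.sum_product]
  push_cast
  apply Finset.sum_congr rfl fun x _ => Finset.sum_congr rfl fun y _ => ?_
  unfold rel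
  by_cases h1 : x < y <;> by_cases h2 : G.Adj x y <;> simp [h1, h2]

lemma subgraph_ncard_le {G : SimpleGraph (Fin n)} (G' : G.Subgraph) :
    G'.edgeSet.ncard ≤ G.edgeSet.ncard :=
  Set.ncard_le_ncard G'.edgeSet_subset (Set.toFinite _)

end edges

section density

variable {r n : ℕ} {F : SimpleGraph (Fin r)}

lemma relTuran_bdd (F : SimpleGraph (Fin r)) (G : SimpleGraph (Fin n)) :
    BddAbove {x : ℝ | ∃ G' : G.Subgraph, ¬ Contains F G' ∧
      x = (G'.edgeSet.ncard : ℝ) / (G.edgeSet.ncard : ℝ)} := by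
  refine ⟨1, ?_⟩
  rintro x ⟨G', -, rfl⟩
  apply div_le_one_of_le₀ _ (Nat.cast_nonneg _)
  exact_mod_cast subgraph_ncard_le G'

lemma le_relTuran (G : SimpleGraph (Fin n)) (G' : G.Subgraph) (h : ¬ Contains F G') :
    (G'.edgeSet.ncard : ℝ) / (G.edgeSet.ncard : ℝ) ≤ relTuran F G :=
  le_csSup (relTuran_bdd F G) ⟨G', h, rfl⟩

lemma relTuran_nonneg (F : SimpleGraph (Fin r)) (G : SimpleGraph (Fin n)) : 0 ≤ relTuran F G := by
  apply Real.sSup_nonneg
  rintro x ⟨G', -, rfl⟩
  positivity

lemma turanDensity_bdd (F : SimpleGraph (Fin r)) :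
    BddBelow {x : ℝ | ∃ (n : ℕ) (G : SimpleGraph (Fin n)), 1 ≤ G.edgeSet.ncard ∧
      x = relTuran F G} := by
  refine ⟨0, ?_⟩
  rintro x ⟨n, G, -, rfl⟩
  exact relTuran_nonneg F G

lemma turanDensity_nonneg (F : SimpleGraph (Fin r)) : 0 ≤ turanDensity F := by
  apply Real.sInf_nonneg
  rintro x ⟨n, G, -, rfl⟩
  exact relTuran_nonneg F G

lemma exists_graph_edge : ∃ (n : ℕ) (G : SimpleGraph (Fin n)), 1 ≤ G.edgeSet.ncard := by
  classical
  refine ⟨2, ⊤, ?_⟩
  rw [edgeSet_ncard_eq]
  apply Finset.card_pos.2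
  refine ⟨(0, 1), ?_⟩
  simp

lemma relTuran_le_one (F : SimpleGraph (Fin r)) (G : SimpleGraph (Fin n)) : relTuran F G ≤ 1 := by
  apply Real.sSup_le _ zero_le_one
  rintro x ⟨G', -, rfl⟩
  apply div_le_one_of_le₀ _ (Nat.cast_nonneg _)
  exact_mod_cast subgraph_ncard_le G'

lemma turanDensity_le_one (F : SimpleGraph (Fin r)) : turanDensity F ≤ 1 := by
  obtain ⟨n, G, hG⟩ := exists_graph_edge
  exact (csInf_le (turanDensity_bdd F) ⟨n, G, hG, rfl⟩).trans (relTuran_le_one F G)

/-- The spanning subgraph of `G` given by a labelling and a relation on the labels. -/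
def labelSub {q : ℕ} (G : SimpleGraph (Fin n)) (R : Fin q → Fin q → Prop) (f : Fin n → Fin q) :
    G.Subgraph where
  verts := Set.univ
  Adj x y := G.Adj x y ∧ ((x < y ∧ R (f x) (f y)) ∨ (y < x ∧ R (f y) (f x)))
  adj_sub h := h.1
  edge_vert _ := Set.mem_univ _
  symm := ⟨fun x y h => ⟨h.1.symm, h.2.symm⟩⟩

/-- If `F` has no homomorphism to the digraph `R` on `q` labels then `ρ_<(F,G)` is at least the
density of `R`, for every `G`. -/
lemma le_relTuran_of_no_hom {q : ℕ} (hq : 0 < q) (R : Fin q → Fin q → Prop)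
    (hno : ¬ ∃ φ : Fin r → Fin q, ∀ i j, i < j → F.Adj i j → R (φ i) (φ j))
    (G : SimpleGraph (Fin n)) (hG : 1 ≤ G.edgeSet.ncard) :
    (∑ a, ∑ b, rel R a b) / (q * q) ≤ relTuran F G := by
  classical
  have hqne : Nonempty (Fin q) := ⟨⟨0, hq⟩⟩
  have hfree : ∀ f : Fin n → Fin q, ¬ Contains F (labelSub G R f) := by
    rintro f ⟨g, hg, -, hadj⟩
    apply hno
    refine ⟨fun i => f (g i), fun i j hij hF => ?_⟩
    rcases (hadj i j hF).2 with h | h
    · exact h.2
    · exact absurd h.1 (hg hij).not_gt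
  -- the average number of edges
  have havg : avg (fun f : Fin n → Fin q => ((labelSub G R f).edgeSet.ncard : ℝ)) =
      (∑ a, ∑ b, rel R a b) / (q * q) * (G.edgeSet.ncard : ℝ) := by
    simp only [subgraph_ncard_eq_sum, edgeSet_ncard_eq_sum, avg_sum, Finset.mul_sum]
    apply Finset.sum_congr rfl fun x _ => Finset.sum_congr rfl fun y _ => ?_
    by_cases hxy : x < y
    · simp only [if_pos hxy]
      have hrel : ∀ f : Fin n → Fin q, rel (labelSub G R f).Adj x y =
          rel G.Adj x y * rel R (f x) (f y) := by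
        intro f
        unfold rel labelSub
        by_cases h1 : G.Adj x y <;> by_cases h2 : R (f x) (f y) <;>
          simp [h1, h2, hxy, hxy.not_gt]
      simp only [hrel, avg_mul_left]
      have h2 : avg (fun f : Fin n → Fin q => rel R (f x) (f y)) =
          (∑ a, ∑ b, rel R a b) / (q * q) := by
        have h := sum_two_pi (fun (_ : Fin n) (_ : Fin q) => (1 : ℝ)) hxy.ne (rel R)
        simp only [Finset.prod_const_one, mul_one, Finset.sum_const, Finset.card_univ,
          Fintype.card_fin, nsmul_eq_mul, Finset.prod_const] at h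
        have hn2 : 2 ≤ n := by
          have := x.2; have := y.2; have := Fin.lt_def.1 hxy; omega
        have hc : ((univ.erase x).erase y : Finset (Fin n)).card = n - 2 := by
          rw [Finset.card_erase_of_mem (Finset.mem_erase.2 ⟨hxy.ne', Finset.mem_univ _⟩),
            Finset.card_erase_of_mem (Finset.mem_univ _), Finset.card_univ, Fintype.card_fin]
          omega
        rw [hc] at h
        unfold avg
        rw [h, Fintype.card_fun, Fintype.card_fin, Fintype.card_fin]
        have hq' : (q : ℝ) ≠ 0 := by exact_mod_cast hq.ne'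
        push_cast
        have hpow : (q : ℝ) ^ n = q ^ (n - 2) * (q * q) := by
          rw [← pow_two, ← pow_add]; congr 1; omega
        rw [hpow]
        field_simp
      rw [h2]
      ring
    · simp only [if_neg hxy, avg_const, mul_zero]
  obtain ⟨f, hf⟩ := exists_ge_avg (fun f : Fin n → Fin q => ((labelSub G R f).edgeSet.ncard : ℝ))
  rw [havg] at hf
  have hGpos : (0 : ℝ) < G.edgeSet.ncard := by exact_mod_cast hG
  refine le_trans ?_ (le_relTuran G (labelSub G R f) (hfree f))
  rw [le_div_iff₀ hGpos]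
  exact hf

/-- If the density of the digraph `R` exceeds `ρ_<(F)` then `F` has a homomorphism to `R`. -/
lemma exists_hom_of_gt {q : ℕ} (hq : 0 < q) (R : Fin q → Fin q → Prop)
    (hR : turanDensity F < (∑ a, ∑ b, rel R a b) / (q * q)) :
    ∃ φ : Fin r → Fin q, ∀ i j, i < j → F.Adj i j → R (φ i) (φ j) := by
  by_contra hno
  have : (∑ a, ∑ b, rel R a b) / (q * q) ≤ turanDensity F := by
    apply le_csInf
    · obtain ⟨n, G, hG⟩ := exists_graph_edge
      exact ⟨_, n, G, hG, rfl⟩
    · rintro x ⟨n, G, hG, rfl⟩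
      exact le_relTuran_of_no_hom hq R hno G hG
  linarith

end density

end Pool.Agent.H41.Ord
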