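import Pool.Agent.H41.Ord.Conf

/-!
# The main inequality: sums over patterns
-/

set_option linter.unusedSectionVars false

namespace Pool.Agent.H41.Ord

open Finset

section pisum

variable {ι κ : Type*} [Fintype ι] [DecidableEq ι] [Fintype κ] [DecidableEq κ]

lemma sum_prod_pi (f : ι → κ → ℝ) : ∑ σ : ι → κ, ∏ i, f i (σ i) = ∏ i, ∑ k, f i k := by
  rw [Finset.prod_univ_sum, Fintype.piFinset_univ]

lemma sum_one_pi (f : ι → κ → ℝ) (b : ι) (g : κ → ℝ) :
    ∑ σ : ι → κ, g (σ b) * ∏ i, f i (σ i) =
      (∑ k, g k * f b k) * ∏ i ∈ univ.erase b, ∑ k, f i k := by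
  have h := sum_prod_pi (fun i k => if i = b then g k * f i k else f i k)
  have h1 : ∀ σ : ι → κ, ∏ i, (if i = b then g (σ i) * f i (σ i) else f i (σ i)) =
      g (σ b) * ∏ i, f i (σ i) := by
    intro σ
    rw [← Finset.mul_prod_erase univ _ (Finset.mem_univ b),
      ← Finset.mul_prod_erase univ (fun i => f i (σ i)) (Finset.mem_univ b)]
    simp only [if_true, ← mul_assoc]
    congr 1
    apply Finset.prod_congr rfl
    intro i hi
    rw [if_neg (Finset.ne_of_mem_erase hi)]
  simp only [h1] at h
  rw [h, ← Finset.mul_prod_erase univ _ (Finset.mem_univ b)]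
  simp only [if_true]
  congr 1
  apply Finset.prod_congr rfl
  intro i hi
  apply Finset.sum_congr rfl
  intro k _
  rw [if_neg (Finset.ne_of_mem_erase hi)]

lemma sum_two_pi (f : ι → κ → ℝ) {a b : ι} (hab : a ≠ b) (g : κ → κ → ℝ) :
    ∑ σ : ι → κ, g (σ a) (σ b) * ∏ i ∈ (univ.erase a).erase b, f i (σ i) =
      (∑ k, ∑ k', g k k') * ∏ i ∈ (univ.erase a).erase b, ∑ k, f i k := by
  have hb : b ∈ univ.erase a := Finset.mem_erase.2 ⟨hab.symm, Finset.mem_univ b⟩
  have hsplit : ∀ F : ι → ℝ, ∏ i, F i = F a * (F b * ∏ i ∈ (univ.erase a).erase b, F i) := by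
    intro F
    rw [← Finset.mul_prod_erase univ F (Finset.mem_univ a), ← Finset.mul_prod_erase _ F hb]
  have hrest : ∀ (F F' : ι → ℝ), (∀ i, i ≠ a → i ≠ b → F i = F' i) →
      ∏ i ∈ (univ.erase a).erase b, F i = ∏ i ∈ (univ.erase a).erase b, F' i := by
    intro F F' h
    apply Finset.prod_congr rfl
    intro i hi
    have h1 := Finset.mem_erase.1 hi
    have h2 := Finset.mem_erase.1 h1.2
    exact h i h2.1 h1.1
  -- one pair of values at a time
  have key : ∀ k k' : κ, ∑ σ : ι → κ, (if σ a = k then (1 : ℝ) else 0) *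
      ((if σ b = k' then (1 : ℝ) else 0) * ∏ i ∈ (univ.erase a).erase b, f i (σ i)) =
      ∏ i ∈ (univ.erase a).erase b, ∑ k, f i k := by
    intro k k'
    have h := sum_prod_pi (fun i (l : κ) => if i = a then (if l = k then (1 : ℝ) else 0)
      else if i = b then (if l = k' then (1 : ℝ) else 0) else f i l)
    simp only [hsplit, if_true, if_neg hab.symm] at h
    have e1 : ∀ σ : ι → κ, ∏ i ∈ (univ.erase a).erase b,
        (if i = a then (if σ i = k then (1 : ℝ) else 0)
          else if i = b then (if σ i = k' then (1 : ℝ) else 0) else f i (σ i)) =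
        ∏ i ∈ (univ.erase a).erase b, f i (σ i) := by
      intro σ
      apply hrest
      intro i h1 h2
      rw [if_neg h1, if_neg h2]
    simp only [e1] at h
    rw [h]
    have e2 : ∏ i ∈ (univ.erase a).erase b, ∑ l : κ,
        (if i = a then (if l = k then (1 : ℝ) else 0)
          else if i = b then (if l = k' then (1 : ℝ) else 0) else f i l) =
        ∏ i ∈ (univ.erase a).erase b, ∑ l, f i l := by
      apply hrest (fun i => ∑ l : κ,
        (if i = a then (if l = k then (1 : ℝ) else 0)
          else if i = b then (if l = k' then (1 : ℝ) else 0) else f i l)) (fun i => ∑ l, f i l)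
      intro i h1 h2
      simp only [if_neg h1, if_neg h2]
    rw [e2]
    simp
  calc ∑ σ : ι → κ, g (σ a) (σ b) * ∏ i ∈ (univ.erase a).erase b, f i (σ i)
      = ∑ σ : ι → κ, ∑ k, ∑ k', g k k' * ((if σ a = k then (1 : ℝ) else 0) *
        ((if σ b = k' then (1 : ℝ) else 0) * ∏ i ∈ (univ.erase a).erase b, f i (σ i))) := by
        apply Finset.sum_congr rfl
        intro σ _
        rw [Finset.sum_eq_single (σ a), Finset.sum_eq_single (σ b)]
        · simp
        · intro k' _ hk'
          rw [if_neg (Ne.symm hk')]; simp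
        · simp
        · intro k _ hk
          apply Finset.sum_eq_zero
          intro k' _
          rw [if_neg (Ne.symm hk)]; simp
        · simp
    _ = ∑ k, ∑ k', g k k' * ∑ σ : ι → κ, ((if σ a = k then (1 : ℝ) else 0) *
        ((if σ b = k' then (1 : ℝ) else 0) * ∏ i ∈ (univ.erase a).erase b, f i (σ i))) := by
        rw [Finset.sum_comm]
        apply Finset.sum_congr rfl
        intro k _
        rw [Finset.sum_comm]
        apply Finset.sum_congr rfl
        intro k' _
        rw [Finset.mul_sum]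
    _ = _ := by
        simp only [key]
        simp_rw [← Finset.sum_mul]

end pisum

section defs

/-- The indicator function of a set. -/
noncomputable def ind {α : Type*} (A : Set α) (z : α) : ℝ := by
  classical exact if z ∈ A then 1 else 0

lemma ind_nonneg {α : Type*} (A : Set α) (z : α) : 0 ≤ ind A z := by
  classical
  unfold ind; split_ifs <;> norm_num

lemma ind_le_one {α : Type*} (A : Set α) (z : α) : ind A z ≤ 1 := by
  classical
  unfold ind; split_ifs <;> norm_num

lemma ind_of_mem {α : Type*} {A : Set α} {z : α} (h : z ∈ A) : ind A z = 1 := by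
  classical
  unfold ind; simp [h]

lemma ind_of_notMem {α : Type*} {A : Set α} {z : α} (h : z ∉ A) : ind A z = 0 := by
  classical
  unfold ind; simp [h]

/-- The zero-one value of a relation. -/
noncomputable def rel {α : Type*} (G : α → α → Prop) (z z' : α) : ℝ := by
  classical exact if G z z' then 1 else 0

lemma rel_nonneg {α : Type*} (G : α → α → Prop) (z z' : α) : 0 ≤ rel G z z' := by
  classical
  unfold rel; split_ifs <;> norm_num

lemma rel_le_one {α : Type*} (G : α → α → Prop) (z z' : α) : rel G z z' ≤ 1 := by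
  classical
  unfold rel; split_ifs <;> norm_num

/-- The density of a set. -/
noncomputable def den {α : Type*} [Fintype α] (A : Set α) : ℝ := avg (ind A)

lemma den_nonneg {α : Type*} [Fintype α] (A : Set α) : 0 ≤ den A := avg_nonneg (ind_nonneg A)

lemma den_le_one {α : Type*} [Fintype α] [Nonempty α] (A : Set α) : den A ≤ 1 :=
  avg_le_of_le (ind_le_one A)

lemma den_eq_zero_of_empty {α : Type*} [Fintype α] {A : Set α} (h : ¬ A.Nonempty) : den A = 0 := by
  rw [Set.not_nonempty_iff_eq_empty] at h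
  subst h
  unfold den avg
  have : ∀ z : α, ind (∅ : Set α) z = 0 := fun z => ind_of_notMem (by simp)
  simp [this]

variable {V Ω : Type} [Fintype V] [Fintype Ω]

/-- The local density of a set over a point of the host. -/
noncomputable def loc (A : Set (V × Ω)) (h : V) : ℝ := avg (fun ω => ind A (h, ω))

lemma den_eq_avg_loc (A : Set (V × Ω)) : den A = avg (loc A) := avg_prod _

/-- The mean deviation of the local densities. -/
noncomputable def dev (A : Set (V × Ω)) : ℝ := avg (fun h => |loc A h - den A|)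

lemma dev_nonneg (A : Set (V × Ω)) : 0 ≤ dev A := avg_nonneg fun _ => abs_nonneg _

/-- The functional of the host blown up by `Ω`. -/
noncomputable def blow (S : (V → V → ℝ) →ₗ[ℝ] ℝ) (F : V × Ω → V × Ω → ℝ) : ℝ :=
  S (fun h h' => avg (fun ω => avg (fun ω' => F (h, ω) (h', ω'))))

lemma blow_add (S : (V → V → ℝ) →ₗ[ℝ] ℝ) (F F' : V × Ω → V × Ω → ℝ) :
    blow S (fun z z' => F z z' + F' z z') = blow S F + blow S F' := by
  unfold blow
  rw [← map_add]
  congr 1
  ext h h'
  simp only [avg_add, Pi.add_apply]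

lemma blow_zero (S : (V → V → ℝ) →ₗ[ℝ] ℝ) :
    blow S (fun (_ _ : V × Ω) => (0 : ℝ)) = 0 := by
  unfold blow
  have : (fun (_ _ : V) => avg (fun _ : Ω => avg (fun _ : Ω => (0 : ℝ)))) = 0 := by
    ext h h'
    simp [avg]
  rw [this, map_zero]

lemma blow_sum (S : (V → V → ℝ) →ₗ[ℝ] ℝ) {ι : Type*} (s : Finset ι) (F : ι → V × Ω → V × Ω → ℝ) :
    blow S (fun z z' => ∑ i ∈ s, F i z z') = ∑ i ∈ s, blow S (F i) := by
  classical
  induction s using Finset.induction_on with
  | empty => simp [blow_zero]
  | insert i s hi ih =>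
    simp only [Finset.sum_insert hi]
    rw [blow_add, ih]

lemma blow_congr (S : (V → V → ℝ) →ₗ[ℝ] ℝ) {F F' : V × Ω → V × Ω → ℝ}
    (h : ∀ z z', F z z' = F' z z') : blow S F = blow S F' := by
  have : F = F' := by ext z z'; exact h z z'
  rw [this]

variable {q : ℕ}

/-- The weight of the pairs of `G` from `A` to `B`. -/
noncomputable def pairS (S : (V → V → ℝ) →ₗ[ℝ] ℝ) (G : V × Ω → V × Ω → Prop)
    (A B : Set (V × Ω)) : ℝ :=
  blow S (fun z z' => ind A z * ind B z' * rel G z z')

/-- The target value of the main inequality. -/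
noncomputable def target (S : (V → V → ℝ) →ₗ[ℝ] ℝ) (G : V × Ω → V × Ω → Prop)
    (A : Fin q → Set (V × Ω)) : ℝ :=
  ∑ a, ∑ b ∈ univ.erase a, pairS S G (A a) (A b) * ∏ c ∈ (univ.erase a).erase b, den (A c)

end defs

section patterns

variable {V Ω : Type} [Fintype V] [Fintype Ω] {q M : ℕ}

/-- The part of `A` in the block `(t, p)`. -/
def blk (t : Fin M) (p : Fin M → V) (A : Set (Next V M × Ω)) : Set (V × ((Fin M → V) × Ω)) :=
  {z | emb t p z ∈ A}

/-- The part of `A` in the block `(t, p)` with pattern `τ` on the vertices `x₀ a`. -/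
def patA (G : Next V M × Ω → Next V M × Ω → Prop) (x₀ : Fin q → Next V M × Ω) (t : Fin M)
    (p : Fin M → V) (A : Set (Next V M × Ω)) (τ : Fin q → Bool) :
    Set (V × ((Fin M → V) × Ω)) :=
  {z | emb t p z ∈ A ∧ ∀ a, (G (x₀ a) (emb t p z) ↔ τ a = true)}

open Classical in
/-- The pattern of a vertex. -/
noncomputable def pattern (G : Next V M × Ω → Next V M × Ω → Prop) (x₀ : Fin q → Next V M × Ω)
    (z : Next V M × Ω) : Fin q → Bool := fun a => decide (G (x₀ a) z)

lemma ind_patA (G : Next V M × Ω → Next V M × Ω → Prop) (x₀ : Fin q → Next V M × Ω) (t : Fin M)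
    (p : Fin M → V) (A : Set (Next V M × Ω)) (τ : Fin q → Bool) (z : V × ((Fin M → V) × Ω)) :
    ind (patA G x₀ t p A τ) z =
      ind (blk t p A) z * (if pattern G x₀ (emb t p z) = τ then 1 else 0) := by
  classical
  have hiff : z ∈ patA G x₀ t p A τ ↔ (z ∈ blk t p A ∧ pattern G x₀ (emb t p z) = τ) := by
    unfold patA blk pattern
    simp only [Set.mem_ofPred_eq]
    refine and_congr_right fun _ => ?_
    rw [funext_iff]
    refine forall_congr' fun a => ?_
    by_cases h : G (x₀ a) (emb t p z) <;> cases hτ : τ a <;> simp [h]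
  by_cases h1 : z ∈ blk t p A <;> by_cases h2 : pattern G x₀ (emb t p z) = τ
  · rw [ind_of_mem (hiff.2 ⟨h1, h2⟩), ind_of_mem h1, if_pos h2]; norm_num
  · rw [ind_of_notMem (fun h => h2 (hiff.1 h).2), if_neg h2]; norm_num
  · rw [ind_of_notMem (fun h => h1 (hiff.1 h).1), ind_of_notMem h1]; norm_num
  · rw [ind_of_notMem (fun h => h1 (hiff.1 h).1), ind_of_notMem h1]; norm_num

lemma sum_ind_patA (G : Next V M × Ω → Next V M × Ω → Prop) (x₀ : Fin q → Next V M × Ω)
    (t : Fin M) (p : Fin M → V) (A : Set (Next V M × Ω)) (z : V × ((Fin M → V) × Ω)) :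
    ∑ τ : Fin q → Bool, ind (patA G x₀ t p A τ) z = ind (blk t p A) z := by
  simp only [ind_patA]
  rw [← Finset.mul_sum, Finset.sum_ite_eq]
  simp

lemma sum_den_patA (G : Next V M × Ω → Next V M × Ω → Prop) (x₀ : Fin q → Next V M × Ω)
    (t : Fin M) (p : Fin M → V) (A : Set (Next V M × Ω)) :
    ∑ τ : Fin q → Bool, den (patA G x₀ t p A τ) = den (blk t p A) := by
  unfold den
  rw [← avg_sum]
  exact avg_congr fun z => sum_ind_patA G x₀ t p A z

lemma sum_den_patA_true (G : Next V M × Ω → Next V M × Ω → Prop) (x₀ : Fin q → Next V M × Ω)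
    (t : Fin M) (p : Fin M → V) (A : Set (Next V M × Ω)) (a : Fin q) :
    ∑ τ : Fin q → Bool, (if τ a = true then (1 : ℝ) else 0) * den (patA G x₀ t p A τ) =
      avg (fun z => ind (blk t p A) z * rel G (x₀ a) (emb t p z)) := by
  classical
  unfold den
  simp only [← avg_mul_left]
  rw [← avg_sum]
  apply avg_congr
  intro z
  simp only [ind_patA]
  rw [Finset.sum_eq_single (pattern G x₀ (emb t p z))]
  · unfold pattern rel
    by_cases h : G (x₀ a) (emb t p z) <;> simp [h]
  · intro τ _ hτ
    rw [if_neg (Ne.symm hτ)]; ring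
  · simp

lemma sum_target_patA (S : (V → V → ℝ) →ₗ[ℝ] ℝ) (G : Next V M × Ω → Next V M × Ω → Prop)
    (x₀ : Fin q → Next V M × Ω) (t : Fin M) (p : Fin M → V) (A : Fin q → Set (Next V M × Ω)) :
    ∑ σ : Fin q → Fin q → Bool, target S (subG G t p) (subA G A x₀ t p σ) =
      target S (subG G t p) (fun b => blk t p (A b)) := by
  unfold target
  rw [Finset.sum_comm]
  apply Finset.sum_congr rfl
  intro a _
  rw [Finset.sum_comm]
  apply Finset.sum_congr rfl
  intro b hb
  have hab : a ≠ b := (Finset.ne_of_mem_erase hb).symm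
  have h := sum_two_pi (fun (c : Fin q) (τ : Fin q → Bool) => den (patA G x₀ t p (A c) τ)) hab
    (fun τ τ' => pairS S (subG G t p) (patA G x₀ t p (A a) τ) (patA G x₀ t p (A b) τ'))
  simp only [sum_den_patA] at h
  refine Eq.trans h ?_
  congr 1
  unfold pairS
  simp only [← blow_sum]
  apply blow_congr
  intro z z'
  rw [← sum_ind_patA G x₀ t p (A a) z, ← sum_ind_patA G x₀ t p (A b) z', Finset.sum_mul_sum,
    Finset.sum_mul]
  apply Finset.sum_congr rfl
  intro τ _
  rw [Finset.sum_mul]

end patterns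

end Pool.Agent.H41.Ord
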