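import Pool.Agent.H41.Ord.Main1

/-!
# The main inequality: one block
-/

set_option linter.unusedSectionVars false

namespace Pool.Agent.H41.Ord

open Finset

/-- The main inequality with constants `K`, `B`. -/
def Claim {V : Type} [Fintype V] [LinearOrder V] {n : ℕ} {c : ℝ} (H : Host V n c) (q : ℕ)
    (K B : ℝ) : Prop :=
  ∀ (Ω : Type) [Fintype Ω] [Nonempty Ω] (G : V × Ω → V × Ω → Prop) (A : Fin q → Set (V × Ω)),
    target H.S G A - K * ∑ b, dev (A b) - B ≤ (best G A n : ℝ) * ∏ b, den (A b)

section block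

variable {V Ω : Type} [Fintype V] [LinearOrder V] [Nonempty V] [Fintype Ω] [Nonempty Ω]
  {q M n : ℕ} {c : ℝ}

/-- The probability that a random vertex of the block is in `B` and related to `x`. -/
noncomputable def hit (G : Next V M × Ω → Next V M × Ω → Prop) (x : Next V M × Ω)
    (B : Set (Next V M × Ω)) (t : Fin M) (p : Fin M → V) : ℝ :=
  avg (fun z : V × ((Fin M → V) × Ω) => ind (blk t p B) z * rel G x (emb t p z))

lemma offOnes_cast (D : Fin q → Fin q → Bool) :
    (offOnes D : ℝ) = ∑ a, ∑ b ∈ univ.erase a, (if D a b = true then (1 : ℝ) else 0) := by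
  unfold offOnes
  push_cast
  apply Finset.sum_congr rfl
  intro a _
  rw [← Finset.add_sum_erase univ _ (Finset.mem_univ a)]
  simp only [ne_eq, not_true_eq_false, false_and, if_false, zero_add]
  apply Finset.sum_congr rfl
  intro b hb
  have : a ≠ b := (Finset.ne_of_mem_erase hb).symm
  simp [this]

lemma block_ineq {H : Host V n c} {K B : ℝ} (hcl : Claim H q K B)
    {G : Next V M × Ω → Next V M × Ω → Prop} {A : Fin q → Set (Next V M × Ω)}
    {x₀ : Fin q → Next V M × Ω} (hx₀ : ∀ a, x₀ a ∈ A a)
    (hx₀' : ∀ a, ∃ u, (x₀ a).1 = Next.mk false u) (t : Fin M) (p : Fin M → V) :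
    (∑ a, ∑ b ∈ univ.erase a, hit G (x₀ a) (A b) t p * ∏ c ∈ univ.erase b, den (blk t p (A c)))
      + target H.S (subG G t p) (fun b => blk t p (A b))
      - K * ∑ σ : Fin q → Fin q → Bool, ∑ b, dev (subA G A x₀ t p σ b)
      - Fintype.card (Fin q → Fin q → Bool) * B
      ≤ (best G A (n + 1) : ℝ) * ∏ b, den (blk t p (A b)) := by
  classical
  -- the product of the densities as a sum over patterns
  have hprod : ∏ b, den (blk t p (A b)) =
      ∑ σ : Fin q → Fin q → Bool, ∏ b, den (subA G A x₀ t p σ b) := by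
    have h := sum_prod_pi (fun (b : Fin q) (τ : Fin q → Bool) => den (patA G x₀ t p (A b) τ))
    simp only [sum_den_patA] at h
    exact h.symm
  -- the number of ones
  have hones : ∑ σ : Fin q → Fin q → Bool, (offOnes (fun a b => σ b a) : ℝ) *
      ∏ b, den (subA G A x₀ t p σ b) =
      ∑ a, ∑ b ∈ univ.erase a, hit G (x₀ a) (A b) t p * ∏ c ∈ univ.erase b, den (blk t p (A c)) := by
    simp only [offOnes_cast, Finset.sum_mul]
    rw [Finset.sum_comm]
    apply Finset.sum_congr rfl
    intro a _
    rw [Finset.sum_comm]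
    apply Finset.sum_congr rfl
    intro b _
    have h := sum_one_pi (fun (c : Fin q) (τ : Fin q → Bool) => den (patA G x₀ t p (A c) τ)) b
      (fun τ => if τ a = true then (1 : ℝ) else 0)
    simp only [sum_den_patA, sum_den_patA_true] at h
    exact h
  -- termwise inequality
  have hterm : ∀ σ : Fin q → Fin q → Bool,
      (offOnes (fun a b => σ b a) : ℝ) * ∏ b, den (subA G A x₀ t p σ b) +
        (target H.S (subG G t p) (subA G A x₀ t p σ) - K * ∑ b, dev (subA G A x₀ t p σ b) - B)
      ≤ (best G A (n + 1) : ℝ) * ∏ b, den (subA G A x₀ t p σ b) := by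
    intro σ
    have hIH := hcl ((Fin M → V) × Ω) (subG G t p) (subA G A x₀ t p σ)
    by_cases hne : ∀ b, (subA G A x₀ t p σ b).Nonempty
    · have hb := best_step hx₀ hx₀' t p σ n hne
      have hb' : (offOnes (fun a b => σ b a) : ℝ) + (best (subG G t p) (subA G A x₀ t p σ) n : ℝ)
          ≤ (best G A (n + 1) : ℝ) := by exact_mod_cast hb
      have hP : 0 ≤ ∏ b, den (subA G A x₀ t p σ b) := Finset.prod_nonneg fun b _ => den_nonneg _
      have := mul_le_mul_of_nonneg_right hb' hP
      rw [add_mul] at this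
      linarith
    · push Not at hne
      obtain ⟨b, hb⟩ := hne
      have hz : ∏ b, den (subA G A x₀ t p σ b) = 0 :=
        Finset.prod_eq_zero (Finset.mem_univ b)
          (den_eq_zero_of_empty (Set.not_nonempty_iff_eq_empty.2 hb))
      rw [hz] at hIH ⊢
      linarith
  have hsum := Finset.sum_le_sum fun σ (_ : σ ∈ (univ : Finset (Fin q → Fin q → Bool))) => hterm σ
  rw [Finset.sum_add_distrib, hones, ← Finset.mul_sum, ← hprod, Finset.sum_sub_distrib,
    Finset.sum_sub_distrib, sum_target_patA, ← Finset.mul_sum, Finset.sum_const, Finset.card_univ,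
    nsmul_eq_mul] at hsum
  linarith

end block

end Pool.Agent.H41.Ord
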