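import Pool.Agent.H41.Ord.Main2

/-!
# The main inequality: averaging over the blocks
-/

set_option linter.unusedSectionVars false

namespace Pool.Agent.H41.Ord

open Finset

lemma abs_prod_sub_prod_le {ι : Type*} (s : Finset ι) (x y : ι → ℝ)
    (hx : ∀ i, 0 ≤ x i) (hx1 : ∀ i, x i ≤ 1) (hy : ∀ i, 0 ≤ y i) (hy1 : ∀ i, y i ≤ 1) :
    |∏ i ∈ s, x i - ∏ i ∈ s, y i| ≤ ∑ i ∈ s, |x i - y i| := by
  classical
  induction s using Finset.induction_on with
  | empty => simp
  | insert i s hi ih =>
    rw [Finset.prod_insert hi, Finset.prod_insert hi, Finset.sum_insert hi]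
    have hP : 0 ≤ ∏ i ∈ s, x i := Finset.prod_nonneg fun i _ => hx i
    have hP1 : ∏ i ∈ s, x i ≤ 1 := Finset.prod_le_one (fun i _ => hx i) fun i _ => hx1 i
    have e : x i * ∏ i ∈ s, x i - y i * ∏ i ∈ s, y i =
        (x i - y i) * ∏ i ∈ s, x i + y i * (∏ i ∈ s, x i - ∏ i ∈ s, y i) := by ring
    rw [e]
    refine (abs_add_le _ _).trans ?_
    rw [abs_mul, abs_mul, abs_of_nonneg hP, abs_of_nonneg (hy i)]
    have h1 : |x i - y i| * ∏ i ∈ s, x i ≤ |x i - y i| :=
      mul_le_of_le_one_right (abs_nonneg _) hP1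
    have h2 : y i * |∏ i ∈ s, x i - ∏ i ∈ s, y i| ≤ |∏ i ∈ s, x i - ∏ i ∈ s, y i| :=
      mul_le_of_le_one_left (abs_nonneg _) (hy1 i)
    linarith

section bounds

variable {V Ω : Type} [Fintype V] [LinearOrder V] [Fintype Ω] [Nonempty Ω] {n : ℕ} {c : ℝ}

lemma Host.S_zero (H : Host V n c) : H.S (fun _ _ => (0 : ℝ)) = 0 := map_zero H.S

lemma pairS_nonneg (H : Host V n c) (G : V × Ω → V × Ω → Prop) (A B : Set (V × Ω)) :
    0 ≤ pairS H.S G A B := by
  rw [← H.S_zero]
  apply H.mono
  intro x y _
  exact avg_nonneg fun ω => avg_nonneg fun ω' =>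
    mul_nonneg (mul_nonneg (ind_nonneg _ _) (ind_nonneg _ _)) (rel_nonneg _ _ _)

lemma pairS_le_total (H : Host V n c) (G : V × Ω → V × Ω → Prop) (A B : Set (V × Ω)) :
    pairS H.S G A B ≤ n := by
  rw [← H.total]
  apply H.mono
  intro x y _
  apply avg_le_of_le fun ω => avg_le_of_le fun ω' => ?_
  have h1 := ind_nonneg A (x, ω)
  have h2 := ind_le_one A (x, ω)
  have h3 := ind_nonneg B (y, ω')
  have h4 := ind_le_one B (y, ω')
  exact mul_le_one₀ (mul_le_one₀ h2 h3 h4) (rel_nonneg _ _ _) (rel_le_one _ _ _)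

lemma pairS_le_left (H : Host V n c) (G : V × Ω → V × Ω → Prop) (A B : Set (V × Ω)) :
    pairS H.S G A B ≤ c * den A := by
  rw [den_eq_avg_loc]
  refine le_trans ?_ (H.margL (loc A) fun x => avg_nonneg fun ω => ind_nonneg _ _)
  apply H.mono
  intro x y _
  apply avg_mono fun ω => avg_le_of_le fun ω' => ?_
  have h1 := ind_nonneg A (x, ω)
  have h3 := ind_nonneg B (y, ω')
  have h4 := ind_le_one B (y, ω')
  change ind A (x, ω) * ind B (y, ω') * rel G (x, ω) (y, ω') ≤ ind A (x, ω)
  rw [mul_assoc]
  exact mul_le_of_le_one_right h1 (mul_le_one₀ h4 (rel_nonneg _ _ _) (rel_le_one _ _ _))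

lemma pairS_le_right (H : Host V n c) (G : V × Ω → V × Ω → Prop) (A B : Set (V × Ω)) :
    pairS H.S G A B ≤ c * den B := by
  rw [den_eq_avg_loc]
  refine le_trans ?_ (H.margR (loc B) fun x => avg_nonneg fun ω => ind_nonneg _ _)
  apply H.mono
  intro x y _
  apply avg_le_of_le fun ω => avg_mono fun ω' => ?_
  have h1 := ind_nonneg A (x, ω)
  have h2 := ind_le_one A (x, ω)
  have h3 := ind_nonneg B (y, ω')
  calc ind A (x, ω) * ind B (y, ω') * rel G (x, ω) (y, ω')
      ≤ ind A (x, ω) * ind B (y, ω') :=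
        mul_le_of_le_one_right (mul_nonneg h1 h3) (rel_le_one _ _ _)
    _ ≤ ind B (y, ω') := mul_le_of_le_one_left h3 h2

end bounds

section blocks

variable {V Ω : Type} [Fintype V] [LinearOrder V] [Nonempty V] [Fintype Ω] [Nonempty Ω]
  {q M n : ℕ} {c : ℝ}

lemma loc_blk (t : Fin M) (p : Fin M → V) (A : Set (Next V M × Ω)) (h : V) :
    loc (blk t p A) h = avg (fun s => loc A (Next.mk true (glue t p h s))) := by
  unfold loc
  rw [avg_prod]
  rfl

lemma den_blk (t : Fin M) (p : Fin M → V) (A : Set (Next V M × Ω)) :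
    den (blk t p A) = avg (fun h : V => avg (fun s => loc A (Next.mk true (glue t p h s)))) := by
  rw [den_eq_avg_loc]
  exact avg_congr fun h => loc_blk t p A h

/-- the density on the left half -/
noncomputable def denL (A : Set (Next V M × Ω)) : ℝ :=
  avg (fun u : Fin M → V => loc A (Next.mk false u))

lemma abs_denL_sub_den_le (A : Set (Next V M × Ω)) : |denL A - den A| ≤ dev A := by
  have h1 : den A = (denL A + avg (fun u : Fin M → V => loc A (Next.mk true u))) / 2 := by
    rw [den_eq_avg_loc, Next.avg_next]; rfl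
  have h2 : dev A = (avg (fun u : Fin M → V => |loc A (Next.mk false u) - den A|) +
      avg (fun u : Fin M → V => |loc A (Next.mk true u) - den A|)) / 2 := by
    unfold dev; rw [Next.avg_next]
  have h3 : |denL A - den A| ≤ avg (fun u : Fin M → V => |loc A (Next.mk false u) - den A|) := by
    have : denL A - den A = avg (fun u : Fin M → V => loc A (Next.mk false u) - den A) := by
      rw [avg_sub, avg_const]; rfl
    rw [this]
    exact abs_avg_le _
  have h4 : |avg (fun u : Fin M → V => loc A (Next.mk true u)) - den A| ≤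
      avg (fun u : Fin M → V => |loc A (Next.mk true u) - den A|) := by
    have : avg (fun u : Fin M → V => loc A (Next.mk true u)) - den A =
        avg (fun u : Fin M → V => loc A (Next.mk true u) - den A) := by
      rw [avg_sub, avg_const]
    rw [this]
    exact abs_avg_le _
  have h5 : |avg (fun u : Fin M → V => loc A (Next.mk true u)) - den A| = |denL A - den A| := by
    have e : avg (fun u : Fin M → V => loc A (Next.mk true u)) - den A = -(denL A - den A) := by
      linarith
    rw [e, abs_neg]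
  linarith

lemma avg_abs_den_blk_le [NeZero M] (A : Set (Next V M × Ω)) :
    avg (fun t : Fin M => avg (fun p : Fin M → V => |den (blk t p A) - den A|)) ≤ 2 * dev A := by
  have : Nonempty (Fin M) := ⟨0⟩
  have h2 : dev A = (avg (fun u : Fin M → V => |loc A (Next.mk false u) - den A|) +
      avg (fun u : Fin M → V => |loc A (Next.mk true u) - den A|)) / 2 := by
    unfold dev; rw [Next.avg_next]
  have h0 : 0 ≤ avg (fun u : Fin M → V => |loc A (Next.mk false u) - den A|) :=
    avg_nonneg fun _ => abs_nonneg _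
  have h3 : ∀ t : Fin M, avg (fun p : Fin M → V => |den (blk t p A) - den A|) ≤
      avg (fun u : Fin M → V => |loc A (Next.mk true u) - den A|) := by
    intro t
    rw [← avg_glue t (fun u => |loc A (Next.mk true u) - den A|)]
    apply avg_mono
    intro p
    have e : den (blk t p A) - den A =
        avg (fun h : V => avg (fun s => loc A (Next.mk true (glue t p h s)) - den A)) := by
      rw [den_blk]
      simp only [avg_sub, avg_const]
    rw [e]
    refine (abs_avg_le _).trans ?_
    exact avg_mono fun h => abs_avg_le _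
  have h4 := avg_le_of_le h3
  linarith

lemma avg_dev_blk_le [NeZero M] (C : Set (Next V M × Ω)) {η : ℝ} (hη : 0 ≤ η)
    (hM : 1 ≤ M * η ^ 2) :
    avg (fun t : Fin M => avg (fun p : Fin M → V => dev (blk t p C))) ≤ η := by
  have : Nonempty (Fin M) := ⟨0⟩
  have hMpos : (0 : ℝ) < M := by exact_mod_cast Nat.pos_of_ne_zero (NeZero.ne M)
  apply le_of_sq_le_sq _ hη
  have hE := energy_le (fun u : Fin M → V => loc C (Next.mk true u))
    (fun u => avg_nonneg fun ω => ind_nonneg _ _) (fun u => avg_le_of_le fun ω => ind_le_one _ _)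
  calc (avg (fun t : Fin M => avg (fun p : Fin M → V => dev (blk t p C)))) ^ 2
      ≤ avg (fun t : Fin M => (avg (fun p : Fin M → V => dev (blk t p C))) ^ 2) := sq_avg_le _
    _ ≤ avg (fun t : Fin M => avg (fun p : Fin M → V => dev (blk t p C) ^ 2)) :=
        avg_mono fun t => sq_avg_le _
    _ ≤ avg (fun t : Fin M => avg (fun p : Fin M → V => avg (fun h : V =>
          (avg (fun s => loc C (Next.mk true (glue t p h s))) -
            avg (fun h' : V => avg (fun s => loc C (Next.mk true (glue t p h' s))))) ^ 2))) := by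
        apply avg_mono fun t => avg_mono fun p => ?_
        unfold dev
        refine (sq_avg_le _).trans ?_
        apply avg_mono fun h => ?_
        rw [sq_abs, loc_blk, den_blk]
    _ ≤ 1 / M := by
        unfold avg at hE ⊢
        rw [Fintype.card_fin]
        gcongr
    _ ≤ η ^ 2 := by
        rw [div_le_iff₀ hMpos]
        linarith [mul_comm (M : ℝ) (η ^ 2)]

/-- The probability that a random vertex of the right half is in `B` and related to `x`. -/
noncomputable def hitR (G : Next V M × Ω → Next V M × Ω → Prop) (x : Next V M × Ω)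
    (B : Set (Next V M × Ω)) : ℝ :=
  avg (fun u : Fin M → V => avg (fun ω : Ω =>
    ind B (Next.mk true u, ω) * rel G x (Next.mk true u, ω)))

lemma avg_hit [NeZero M] (G : Next V M × Ω → Next V M × Ω → Prop) (x : Next V M × Ω)
    (B : Set (Next V M × Ω)) :
    avg (fun t : Fin M => avg (fun p : Fin M → V => hit G x B t p)) = hitR G x B := by
  have : Nonempty (Fin M) := ⟨0⟩
  have h : ∀ t : Fin M, avg (fun p : Fin M → V => hit G x B t p) = hitR G x B := by
    intro t
    unfold hitR
    rw [← avg_glue t (fun u => avg (fun ω : Ω =>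
      ind B (Next.mk true u, ω) * rel G x (Next.mk true u, ω)))]
    apply avg_congr fun p => ?_
    unfold hit
    rw [avg_prod]
    apply avg_congr fun h => ?_
    rw [avg_prod]
    rfl
  rw [avg_congr h, avg_const]

lemma hit_nonneg (G : Next V M × Ω → Next V M × Ω → Prop) (x : Next V M × Ω)
    (B : Set (Next V M × Ω)) (t : Fin M) (p : Fin M → V) : 0 ≤ hit G x B t p :=
  avg_nonneg fun _ => mul_nonneg (ind_nonneg _ _) (rel_nonneg _ _ _)

lemma hit_le_one (G : Next V M × Ω → Next V M × Ω → Prop) (x : Next V M × Ω)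
    (B : Set (Next V M × Ω)) (t : Fin M) (p : Fin M → V) : hit G x B t p ≤ 1 :=
  avg_le_of_le fun _ => mul_le_one₀ (ind_le_one _ _) (rel_nonneg _ _ _) (rel_le_one _ _ _)

lemma hitR_nonneg (G : Next V M × Ω → Next V M × Ω → Prop) (x : Next V M × Ω)
    (B : Set (Next V M × Ω)) : 0 ≤ hitR G x B :=
  avg_nonneg fun _ => avg_nonneg fun _ => mul_nonneg (ind_nonneg _ _) (rel_nonneg _ _ _)

lemma hitR_le_one (G : Next V M × Ω → Next V M × Ω → Prop) (x : Next V M × Ω)
    (B : Set (Next V M × Ω)) : hitR G x B ≤ 1 :=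
  avg_le_of_le fun _ => avg_le_of_le fun _ =>
    mul_le_one₀ (ind_le_one _ _) (rel_nonneg _ _ _) (rel_le_one _ _ _)

lemma pairS_step (S : (V → V → ℝ) →ₗ[ℝ] ℝ) (G : Next V M × Ω → Next V M × Ω → Prop)
    (A B : Set (Next V M × Ω)) :
    pairS (stepS M S) G A B =
      avg (fun u : Fin M → V => avg (fun ω : Ω =>
        ind A (Next.mk false u, ω) * hitR G (Next.mk false u, ω) B))
      + avg (fun t : Fin M => avg (fun p : Fin M → V =>
        pairS S (subG G t p) (blk t p A) (blk t p B))) := by
  unfold pairS blow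
  change avg _ + avg _ = _
  congr 1
  · apply avg_congr fun u => ?_
    rw [avg_comm]
    apply avg_congr fun ω => ?_
    unfold hitR
    rw [← avg_mul_left]
    apply avg_congr fun u' => ?_
    rw [← avg_mul_left]
    apply avg_congr fun ω' => ?_
    ring
  · apply avg_congr fun t => avg_congr fun p => ?_
    congr 1
    ext h h'
    rw [avg_prod]
    apply avg_congr fun s => ?_
    rw [avg_comm]
    apply avg_congr fun ω => ?_
    rw [avg_prod]
    rfl

end blocks

end Pool.Agent.H41.Ord
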