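import Pool.Agent.H41.Ord.Main3

/-!
# The main inequality: the induction step
-/

set_option linter.unusedSectionVars false

namespace Pool.Agent.H41.Ord

open Finset

section step

variable {V Ω : Type} [Fintype V] [LinearOrder V] [Nonempty V] [Fintype Ω] [Nonempty Ω]
  {q M n : ℕ} {c : ℝ}

lemma exists_good_left {A : Set (Next V M × Ω)} (Q : Next V M × Ω → ℝ) (h : denL A ≠ 0) :
    ∃ x ∈ A, (∃ u, x.1 = Next.mk false u) ∧
      avg (fun u : Fin M → V => avg (fun ω : Ω =>
        ind A (Next.mk false u, ω) * Q (Next.mk false u, ω))) ≤ Q x * denL A := by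
  classical
  have hne : (univ.filter (fun z : (Fin M → V) × Ω => (Next.mk false z.1, z.2) ∈ A)).Nonempty := by
    by_contra hcon
    rw [Finset.not_nonempty_iff_eq_empty] at hcon
    apply h
    unfold denL loc
    have : ∀ (u : Fin M → V) (ω : Ω), ind A (Next.mk false u, ω) = 0 := by
      intro u ω
      apply ind_of_notMem
      intro hmem
      have : (u, ω) ∈ univ.filter (fun z : (Fin M → V) × Ω => (Next.mk false z.1, z.2) ∈ A) := by
        simp [hmem]
      rw [hcon] at this
      simp at this
    simp only [this, avg_const]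
  obtain ⟨z, hz, hmax⟩ := Finset.exists_max_image _
    (fun z : (Fin M → V) × Ω => Q (Next.mk false z.1, z.2)) hne
  simp only [Finset.mem_filter, Finset.mem_univ, true_and] at hz hmax
  refine ⟨(Next.mk false z.1, z.2), hz, ⟨z.1, rfl⟩, ?_⟩
  unfold denL loc
  rw [← avg_mul_left]
  apply avg_mono fun u => ?_
  rw [← avg_mul_left]
  apply avg_mono fun ω => ?_
  by_cases hmem : (Next.mk false u, ω) ∈ A
  · rw [ind_of_mem hmem, one_mul, mul_one]
    exact hmax (u, ω) hmem
  · rw [ind_of_notMem hmem]; simp

lemma erase_card_le (a : Fin q) : ((univ.erase a).card : ℝ) ≤ q := by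
  have := Finset.card_erase_le (s := (univ : Finset (Fin q))) (a := a)
  rw [Finset.card_univ, Fintype.card_fin] at this
  exact_mod_cast this

lemma sum_pairs_le {f : Fin q → Fin q → ℝ} {C : ℝ} (hC : 0 ≤ C) (h : ∀ a b, b ≠ a → f a b ≤ C) :
    ∑ a, ∑ b ∈ univ.erase a, f a b ≤ q * q * C := by
  calc ∑ a, ∑ b ∈ univ.erase a, f a b ≤ ∑ _a : Fin q, q * C := by
        apply Finset.sum_le_sum
        intro a _
        calc ∑ b ∈ univ.erase a, f a b ≤ ∑ b ∈ univ.erase a, C :=
              Finset.sum_le_sum fun b hb => h a b (Finset.ne_of_mem_erase hb)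
          _ = (univ.erase a).card * C := by rw [Finset.sum_const, nsmul_eq_mul]
          _ ≤ q * C := mul_le_mul_of_nonneg_right (erase_card_le a) hC
    _ = q * q * C := by simp; ring

/-- The degenerate case: some `A a` misses the left half. -/
lemma target_le_of_denL_zero (H : Host (Next V M) (n + 1) (2 + 2 * c)) (hc : 0 ≤ c)
    (G : Next V M × Ω → Next V M × Ω → Prop) (A : Fin q → Set (Next V M × Ω)) (a₀ : Fin q)
    (h0 : denL (A a₀) = 0) :
    target H.S G A ≤ q * q * (((2 + 2 * c) + (n + 1)) * dev (A a₀)) := by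
  have hdev : den (A a₀) ≤ dev (A a₀) := by
    have := abs_denL_sub_den_le (A a₀)
    rw [h0, zero_sub, abs_neg, abs_of_nonneg (den_nonneg _)] at this
    exact this
  have hd0 := den_nonneg (A a₀)
  have hC : 0 ≤ (2 + 2 * c) + ((n : ℝ) + 1) := by positivity
  refine (sum_pairs_le (C := ((2 + 2 * c) + (n + 1)) * den (A a₀)) (mul_nonneg hC hd0) ?_).trans ?_
  · intro a b hba
    have hp0 := pairS_nonneg H G (A a) (A b)
    have hprod0 : 0 ≤ ∏ c ∈ (univ.erase a).erase b, den (A c) :=
      Finset.prod_nonneg fun c _ => den_nonneg _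
    have hprod1 : ∏ c ∈ (univ.erase a).erase b, den (A c) ≤ 1 :=
      Finset.prod_le_one (fun c _ => den_nonneg _) fun c _ => den_le_one _
    by_cases h1 : a₀ = a
    · subst h1
      have := pairS_le_left H G (A a₀) (A b)
      calc pairS H.S G (A a₀) (A b) * ∏ c ∈ (univ.erase a₀).erase b, den (A c)
          ≤ pairS H.S G (A a₀) (A b) := mul_le_of_le_one_right hp0 hprod1
        _ ≤ (2 + 2 * c) * den (A a₀) := this
        _ ≤ _ := mul_le_mul_of_nonneg_right (by linarith [Nat.cast_nonneg (α := ℝ) n]) hd0
    · by_cases h2 : a₀ = b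
      · subst h2
        have := pairS_le_right H G (A a) (A a₀)
        calc pairS H.S G (A a) (A a₀) * ∏ c ∈ (univ.erase a).erase a₀, den (A c)
            ≤ pairS H.S G (A a) (A a₀) := mul_le_of_le_one_right hp0 hprod1
          _ ≤ (2 + 2 * c) * den (A a₀) := this
          _ ≤ _ := mul_le_mul_of_nonneg_right (by linarith [Nat.cast_nonneg (α := ℝ) n]) hd0
      · have hmem : a₀ ∈ (univ.erase a).erase b :=
          Finset.mem_erase.2 ⟨h2, Finset.mem_erase.2 ⟨h1, Finset.mem_univ _⟩⟩
        have hle : ∏ c ∈ (univ.erase a).erase b, den (A c) ≤ den (A a₀) := by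
          rw [← Finset.mul_prod_erase _ _ hmem]
          exact mul_le_of_le_one_right (den_nonneg _)
            (Finset.prod_le_one (fun c _ => den_nonneg _) fun c _ => den_le_one _)
        have ht := pairS_le_total H G (A a) (A b)
        push_cast at ht
        calc pairS H.S G (A a) (A b) * ∏ c ∈ (univ.erase a).erase b, den (A c)
            ≤ (n + 1) * den (A a₀) := by gcongr
          _ ≤ _ := mul_le_mul_of_nonneg_right (by linarith) hd0
  · gcongr

/-- The constant in front of the deviations after one step. -/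
noncomputable def nextK (q n : ℕ) (c : ℝ) : ℝ :=
  4 * (n + 1) * (q * q) + q + q * q * ((2 + 2 * c) + (n + 1))

/-- The additive constant after one step. -/
noncomputable def nextB (q : ℕ) (K B η : ℝ) : ℝ :=
  Fintype.card (Fin q → Fin q → Bool) * (B + K * (q * η))

theorem claim_step {H : Host V n c} (hc : 0 ≤ c) {K B : ℝ} (hK : 0 ≤ K) (hB : 0 ≤ B)
    (hcl : Claim H q K B) [NeZero M] {η : ℝ} (hη : 0 ≤ η) (hM : 1 ≤ M * η ^ 2) :
    Claim (H.step hc M) q (nextK q n c) (nextB q K B η) := by
  classical
  have : Nonempty (Fin M) := ⟨0⟩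
  intro Ω _ _ G A
  have hdev0 : ∀ b, 0 ≤ dev (A b) := fun b => dev_nonneg _
  have hsumdev : 0 ≤ ∑ b, dev (A b) := Finset.sum_nonneg fun b _ => hdev0 b
  have hP0 : 0 ≤ ∏ b, den (A b) := Finset.prod_nonneg fun b _ => den_nonneg _
  have hbest0 : (0 : ℝ) ≤ best G A (n + 1) := Nat.cast_nonneg _
  have hB' : 0 ≤ nextB q K B η := by unfold nextB; positivity
  by_cases hdeg : ∃ a₀, denL (A a₀) = 0
  · obtain ⟨a₀, h0⟩ := hdeg
    have h1 := target_le_of_denL_zero (H.step hc M) hc G A a₀ h0
    have h2 : dev (A a₀) ≤ ∑ b, dev (A b) :=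
      Finset.single_le_sum (fun b _ => hdev0 b) (Finset.mem_univ a₀)
    have h3 : (q : ℝ) * q * (((2 + 2 * c) + (n + 1)) * dev (A a₀)) ≤
        nextK q n c * ∑ b, dev (A b) := by
      calc (q : ℝ) * q * (((2 + 2 * c) + (n + 1)) * dev (A a₀))
          = (q * q * ((2 + 2 * c) + (n + 1))) * dev (A a₀) := by ring
        _ ≤ nextK q n c * ∑ b, dev (A b) := by
            apply mul_le_mul _ h2 (hdev0 _)
            · unfold nextK; positivity
            · unfold nextK
              have : (0 : ℝ) ≤ 4 * (n + 1) * (q * q) + q := by positivity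
              linarith
    have h4 : (0 : ℝ) ≤ best G A (n + 1) * ∏ b, den (A b) := mul_nonneg hbest0 hP0
    linarith
  · push Not at hdeg
    -- notation
    set α : Fin q → ℝ := fun b => den (A b) with hα
    have hα0 : ∀ b, 0 ≤ α b := fun b => den_nonneg _
    have hα1 : ∀ b, α b ≤ 1 := fun b => den_le_one _
    have hprod0 : ∀ s : Finset (Fin q), 0 ≤ ∏ b ∈ s, α b :=
      fun s => Finset.prod_nonneg fun b _ => hα0 b
    have hprod1 : ∀ s : Finset (Fin q), ∏ b ∈ s, α b ≤ 1 :=
      fun s => Finset.prod_le_one (fun b _ => hα0 b) fun b _ => hα1 b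
    let Q : Fin q → Next V M × Ω → ℝ := fun a x =>
      ∑ b ∈ univ.erase a, (∏ c ∈ (univ.erase a).erase b, α c) * hitR G x (A b)
    have hQ0 : ∀ a x, 0 ≤ Q a x := fun a x =>
      Finset.sum_nonneg fun b _ => mul_nonneg (hprod0 _) (hitR_nonneg _ _ _)
    have hQ1 : ∀ a x, Q a x ≤ q := by
      intro a x
      calc Q a x ≤ ∑ b ∈ univ.erase a, (1 : ℝ) := Finset.sum_le_sum fun b _ =>
            mul_le_one₀ (hprod1 _) (hitR_nonneg _ _ _) (hitR_le_one _ _ _)
        _ = (univ.erase a).card := by simp
        _ ≤ q := erase_card_le a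
    choose x₀ hx₀A hx₀L hx₀Q using fun a => exists_good_left (Q a) (hdeg a)
    -- the inequality in one block
    let δ : Fin M → (Fin M → V) → ℝ := fun t p => ∑ b, |den (blk t p (A b)) - α b|
    have hδ0 : ∀ t p, 0 ≤ δ t p := fun t p => Finset.sum_nonneg fun b _ => abs_nonneg _
    have hδ : ∀ t p (s : Finset (Fin q)),
        |∏ b ∈ s, den (blk t p (A b)) - ∏ b ∈ s, α b| ≤ δ t p := by
      intro t p s
      refine (abs_prod_sub_prod_le s (fun b => den (blk t p (A b))) α (fun b => den_nonneg _)
        (fun b => den_le_one _) hα0 hα1).trans ?_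
      exact Finset.sum_le_sum_of_subset_of_nonneg (Finset.subset_univ s)
        fun b _ _ => abs_nonneg _
    let E : Fin M → (Fin M → V) → ℝ := fun t p =>
      ∑ σ : Fin q → Fin q → Bool, ∑ b, dev (subA G A x₀ t p σ b)
    have hblock : ∀ t p,
        (∑ a, ∑ b ∈ univ.erase a, hit G (x₀ a) (A b) t p * ∏ c ∈ univ.erase b, α c) +
        (∑ a, ∑ b ∈ univ.erase a, pairS H.S (subG G t p) (blk t p (A a)) (blk t p (A b)) *
          ∏ c ∈ (univ.erase a).erase b, α c) ≤
        (best G A (n + 1) : ℝ) * ∏ b, α b + 2 * (n + 1) * (q * q) * δ t p + K * E t p +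
          Fintype.card (Fin q → Fin q → Bool) * B := by
      intro t p
      have h := block_ineq hcl (x₀ := x₀) hx₀A hx₀L t p (G := G) (A := A)
      have e1 : ∑ a, ∑ b ∈ univ.erase a, (hit G (x₀ a) (A b) t p * ∏ c ∈ univ.erase b, α c -
          hit G (x₀ a) (A b) t p * ∏ c ∈ univ.erase b, den (blk t p (A c))) ≤ q * q * δ t p := by
        apply sum_pairs_le (hδ0 t p)
        intro a b _
        rw [← mul_sub]
        have h1 := hδ t p (univ.erase b)
        rw [abs_sub_comm] at h1
        have h2 := (le_abs_self _).trans h1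
        have h3 := hit_nonneg G (x₀ a) (A b) t p
        have h4 := hit_le_one G (x₀ a) (A b) t p
        calc hit G (x₀ a) (A b) t p *
              (∏ c ∈ univ.erase b, α c - ∏ c ∈ univ.erase b, den (blk t p (A c)))
            ≤ hit G (x₀ a) (A b) t p * δ t p := by gcongr
          _ ≤ 1 * δ t p := mul_le_mul_of_nonneg_right h4 (hδ0 t p)
          _ = δ t p := one_mul _
      have e2 : ∑ a, ∑ b ∈ univ.erase a,
          (pairS H.S (subG G t p) (blk t p (A a)) (blk t p (A b)) *
            ∏ c ∈ (univ.erase a).erase b, α c -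
          pairS H.S (subG G t p) (blk t p (A a)) (blk t p (A b)) *
            ∏ c ∈ (univ.erase a).erase b, den (blk t p (A c))) ≤ q * q * (n * δ t p) := by
        apply sum_pairs_le (mul_nonneg (Nat.cast_nonneg n) (hδ0 t p))
        intro a b _
        rw [← mul_sub]
        have h1 := hδ t p ((univ.erase a).erase b)
        rw [abs_sub_comm] at h1
        have h2 := (le_abs_self _).trans h1
        have h3 := pairS_nonneg H (subG G t p) (blk t p (A a)) (blk t p (A b))
        have h4 := pairS_le_total H (subG G t p) (blk t p (A a)) (blk t p (A b))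
        calc pairS H.S (subG G t p) (blk t p (A a)) (blk t p (A b)) *
              (∏ c ∈ (univ.erase a).erase b, α c -
                ∏ c ∈ (univ.erase a).erase b, den (blk t p (A c)))
            ≤ pairS H.S (subG G t p) (blk t p (A a)) (blk t p (A b)) * δ t p := by gcongr
          _ ≤ n * δ t p := mul_le_mul_of_nonneg_right h4 (hδ0 t p)
      have e3 : (best G A (n + 1) : ℝ) * ∏ b, den (blk t p (A b)) ≤
          (best G A (n + 1) : ℝ) * ∏ b, α b + (n + 1) * (q * q) * δ t p := by
        have h1 := (le_abs_self _).trans (hδ t p univ)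
        have h2 : (best G A (n + 1) : ℝ) ≤ (n + 1) * (q * q) := by
          exact_mod_cast best_le G A (n + 1)
        calc (best G A (n + 1) : ℝ) * ∏ b, den (blk t p (A b))
            = (best G A (n + 1) : ℝ) * ∏ b, α b +
              (best G A (n + 1) : ℝ) * (∏ b, den (blk t p (A b)) - ∏ b, α b) := by ring
          _ ≤ (best G A (n + 1) : ℝ) * ∏ b, α b + (best G A (n + 1) : ℝ) * δ t p := by gcongr
          _ ≤ _ := add_le_add_right (mul_le_mul_of_nonneg_right h2 (hδ0 t p)) _
      simp only [Finset.sum_sub_distrib] at e1 e2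
      unfold target at h
      have e4 : (2 * (n + 1) * (q * q) * δ t p : ℝ) = q * q * δ t p + q * q * (n * δ t p) +
          (n + 1) * (q * q) * δ t p := by ring
      rw [e4]
      change _ ≤ _ + _ + K * E t p + _
      linarith
    -- averaging
    have havg := avg_mono (fun t => avg_mono (fun p => hblock t p))
    simp only [avg_add, avg_const, avg_mul_left, avg_sum, avg_mul_right, avg_hit] at havg
    have hδavg : avg (fun t => avg (δ t)) ≤ 2 * ∑ b, dev (A b) := by
      simp only [δ, avg_sum]
      rw [Finset.mul_sum]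
      exact Finset.sum_le_sum fun b _ => avg_abs_den_blk_le (A b)
    have hEavg : avg (fun t => avg (E t)) ≤ Fintype.card (Fin q → Fin q → Bool) * (q * η) := by
      simp only [E, avg_sum]
      calc ∑ σ : Fin q → Fin q → Bool, ∑ b, avg (fun t => avg (fun p => dev (subA G A x₀ t p σ b)))
          ≤ ∑ _σ : Fin q → Fin q → Bool, ∑ _b : Fin q, η := by
            apply Finset.sum_le_sum fun σ _ => Finset.sum_le_sum fun b _ => ?_
            exact avg_dev_blk_le {z | z ∈ A b ∧ ∀ a, (G (x₀ a) z ↔ σ b a = true)} hη hM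
        _ = Fintype.card (Fin q → Fin q → Bool) * (q * η) := by
            rw [Finset.sum_const, Finset.sum_const, Finset.card_univ, Finset.card_univ,
              Fintype.card_fin, nsmul_eq_mul, nsmul_eq_mul]
    -- the choice of the left vertices
    let R : Fin q → ℝ := fun a => avg (fun u : Fin M → V => avg (fun ω : Ω =>
      ind (A a) (Next.mk false u, ω) * Q a (Next.mk false u, ω)))
    have hRle : ∀ a, R a ≤ α a * Q a (x₀ a) + q * dev (A a) := by
      intro a
      have h1 := hx₀Q a
      have h2 := abs_denL_sub_den_le (A a)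
      have h3 := (le_abs_self _).trans h2
      have h4 : Q a (x₀ a) * denL (A a) ≤ Q a (x₀ a) * (α a + dev (A a)) := by
        apply mul_le_mul_of_nonneg_left _ (hQ0 _ _)
        simp only [hα]
        linarith
      have h5 : Q a (x₀ a) * dev (A a) ≤ q * dev (A a) := by
        gcongr
        · exact hdev0 a
        · exact hQ1 _ _
      calc R a ≤ Q a (x₀ a) * denL (A a) := h1
        _ ≤ Q a (x₀ a) * (α a + dev (A a)) := h4
        _ = α a * Q a (x₀ a) + Q a (x₀ a) * dev (A a) := by ring
        _ ≤ _ := by linarith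
    have hfirst : ∑ a, ∑ b ∈ univ.erase a, hitR G (x₀ a) (A b) * ∏ c ∈ univ.erase b, α c =
        ∑ a, α a * Q a (x₀ a) := by
      apply Finset.sum_congr rfl
      intro a _
      simp only [Q]
      rw [Finset.mul_sum]
      apply Finset.sum_congr rfl
      intro b hb
      have hab : a ∈ univ.erase b :=
        Finset.mem_erase.2 ⟨(Finset.ne_of_mem_erase hb).symm, Finset.mem_univ _⟩
      rw [← Finset.mul_prod_erase _ α hab, Finset.erase_right_comm]
      ring
    have htarget : target (H.step hc M).S G A = ∑ a, R a +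
        ∑ a, ∑ b ∈ univ.erase a, avg (fun t => avg (fun p =>
          pairS H.S (subG G t p) (blk t p (A a)) (blk t p (A b)))) *
          ∏ c ∈ (univ.erase a).erase b, α c := by
      unfold target
      rw [← Finset.sum_add_distrib]
      apply Finset.sum_congr rfl
      intro a _
      have hR : R a = ∑ b ∈ univ.erase a, avg (fun u : Fin M → V => avg (fun ω : Ω =>
          ind (A a) (Next.mk false u, ω) * hitR G (Next.mk false u, ω) (A b))) *
          ∏ c ∈ (univ.erase a).erase b, α c := by
        simp only [R, Q, Finset.mul_sum, avg_sum]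
        apply Finset.sum_congr rfl
        intro b _
        rw [← avg_mul_right]
        apply avg_congr fun u => ?_
        rw [← avg_mul_right]
        apply avg_congr fun ω => ?_
        ring
      rw [hR, ← Finset.sum_add_distrib]
      apply Finset.sum_congr rfl
      intro b _
      change pairS (stepS M H.S) G (A a) (A b) * _ = _
      rw [pairS_step, add_mul]
    have hRsum : ∑ a, R a ≤ ∑ a, α a * Q a (x₀ a) + q * ∑ a, dev (A a) := by
      rw [Finset.mul_sum, ← Finset.sum_add_distrib]
      exact Finset.sum_le_sum fun a _ => hRle a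
    rw [hfirst] at havg
    rw [htarget]
    have hK2 : K * avg (fun t => avg (E t)) ≤ K * (Fintype.card (Fin q → Fin q → Bool) * (q * η)) :=
      mul_le_mul_of_nonneg_left hEavg hK
    have hC2 : 2 * ((n : ℝ) + 1) * (q * q) * avg (fun t => avg (δ t)) ≤
        2 * ((n : ℝ) + 1) * (q * q) * (2 * ∑ b, dev (A b)) := by
      gcongr
    have hKeq : nextK q n c * ∑ b, dev (A b) = 2 * ((n : ℝ) + 1) * (q * q) * (2 * ∑ b, dev (A b)) +
        q * ∑ b, dev (A b) + q * q * ((2 + 2 * c) + (n + 1)) * ∑ b, dev (A b) := by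
      unfold nextK; ring
    have hnn : 0 ≤ (q : ℝ) * q * ((2 + 2 * c) + (n + 1)) * ∑ b, dev (A b) := by positivity
    have hBeq : nextB q K B η = Fintype.card (Fin q → Fin q → Bool) * B +
        K * (Fintype.card (Fin q → Fin q → Bool) * (q * η)) := by
      unfold nextB; ring
    rw [hKeq, hBeq]
    linarith

end step

end Pool.Agent.H41.Ord
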